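import Pool.Agent.H57.Var

set_option autoImplicit false

namespace Pool.Agent.H57

open Finset Filter Topology ZeroAtInfty

/-- Indicator of a finite set with integer values. -/
def ind (A : Finset ℕ) (n : ℕ) : ℤ := if n ∈ A then 1 else 0

/-- Image of an initial segment. -/
def img (σ : ℕ → ℕ) (t : ℕ) : Finset ℕ := (Finset.range t).image σ

/-- The functional `s ↦ ∑_{i<t} (s (σ i) - s (σ i + 1))` on null sequences. -/
noncomputable def func (σ : ℕ → ℕ) (t : ℕ) : C₀(ℕ, ℝ) →L[ℝ] ℝ :=
  LinearMap.mkContinuous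
    { toFun := fun s => ∑ i ∈ Finset.range t, (s (σ i) - s (σ i + 1))
      map_add' := by
        intro s s'
        rw [← Finset.sum_add_distrib]
        apply Finset.sum_congr rfl
        intro i _
        simp only [ZeroAtInftyContinuousMap.add_apply]
        ring
      map_smul' := by
        intro r s
        rw [RingHom.id_apply, smul_eq_mul, Finset.mul_sum]
        apply Finset.sum_congr rfl
        intro i _
        simp only [ZeroAtInftyContinuousMap.smul_apply, smul_eq_mul]
        ring }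
    (2 * t)
    (by
      intro s
      have hb : ∀ x, |s x| ≤ ‖s‖ := by
        intro x
        have := s.toBCF.norm_coe_le_norm x
        rwa [ZeroAtInftyContinuousMap.norm_toBCF_eq_norm] at this
      show ‖∑ i ∈ Finset.range t, (s (σ i) - s (σ i + 1))‖ ≤ 2 * t * ‖s‖
      rw [Real.norm_eq_abs]
      refine (Finset.abs_sum_le_sum_abs _ _).trans ?_
      calc ∑ i ∈ Finset.range t, |s (σ i) - s (σ i + 1)| ≤ ∑ i ∈ Finset.range t, (2 * ‖s‖) := by
            apply Finset.sum_le_sum
            intro i _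
            refine (abs_sub _ _).trans ?_
            have h1 := hb (σ i)
            have h2 := hb (σ i + 1)
            linarith
        _ = 2 * t * ‖s‖ := by
            rw [Finset.sum_const, Finset.card_range, nsmul_eq_mul]
            ring)

lemma func_apply (σ : ℕ → ℕ) (t : ℕ) (s : C₀(ℕ, ℝ)) :
    func σ t s = ∑ i ∈ Finset.range t, (s (σ i) - s (σ i + 1)) := rfl

/-- The test sequence. -/
noncomputable def test (A : Finset ℕ) (B : ℕ) : C₀(ℕ, ℝ) where
  toFun := fun n => if 1 ≤ n ∧ n ≤ B then ((ind A n - ind A (n-1) : ℤ) : ℝ) else 0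
  continuous_toFun := continuous_of_discreteTopology
  zero_at_infty' := by
    rw [Filter.cocompact_eq_cofinite, Nat.cofinite_eq_atTop]
    apply tendsto_const_nhds.congr'
    rw [EventuallyEq, eventually_atTop]
    refine ⟨B+1, ?_⟩
    intro n hn
    have : ¬ (1 ≤ n ∧ n ≤ B) := by omega
    simp [this]

lemma test_apply (A : Finset ℕ) (B n : ℕ) : test A B n =
    if 1 ≤ n ∧ n ≤ B then ((ind A n - ind A (n-1) : ℤ) : ℝ) else 0 := rfl

lemma test_norm_le (A : Finset ℕ) (B : ℕ) : ‖test A B‖ ≤ 1 := by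
  rw [← ZeroAtInftyContinuousMap.norm_toBCF_eq_norm, BoundedContinuousFunction.norm_le zero_le_one]
  intro n
  show ‖test A B n‖ ≤ 1
  rw [test_apply, Real.norm_eq_abs]
  split_ifs
  · unfold ind
    split_ifs <;> simp
  · simp

lemma func_test (σ : ℕ → ℕ) (hσ : Function.Injective σ) (t B : ℕ) :
    func σ t (test (img σ t) B) = ((V 0 B (ind (img σ t)) : ℤ) : ℝ) := by
  classical
  set A := img σ t with hA
  set s := test A B with hs
  rw [func_apply]
  have h1 : ∑ i ∈ Finset.range t, (s (σ i) - s (σ i + 1)) = ∑ n ∈ A, (s n - s (n+1)) := by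
    rw [hA]
    unfold img
    rw [Finset.sum_image (by intro x _ y _ h; exact hσ h)]
  obtain ⟨D, hD1, hD2⟩ : ∃ D, B ≤ D ∧ ∀ n ∈ A, n < D := by
    refine ⟨max B (A.sup id + 1), le_max_left _ _, ?_⟩
    intro n hn
    have : n ≤ A.sup id := Finset.le_sup (f := id) hn
    exact lt_of_lt_of_le (Nat.lt_succ_of_le this) (le_max_right _ _)
  have h2 : ∑ n ∈ A, (s n - s (n+1)) = ∑ n ∈ Finset.range D, (ind A n : ℝ) * (s n - s (n+1)) := by
    have : ∀ n, (ind A n : ℝ) * (s n - s (n+1)) = if n ∈ A then (s n - s (n+1)) else 0 := by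
      intro n
      unfold ind
      split_ifs <;> simp
    simp_rw [this]
    rw [Finset.sum_ite_mem]
    congr 1
    symm
    apply Finset.inter_eq_right.2
    intro n hn
    exact Finset.mem_range.2 (hD2 n hn)
  have h3 : ∀ D, ∑ n ∈ Finset.range D, (ind A n : ℝ) * (s n - s (n+1)) =
      (ind A 0 : ℝ) * s 0 + ∑ n ∈ Finset.range D, ((ind A (n+1) - ind A n : ℤ) : ℝ) * s (n+1) -
        (ind A D : ℝ) * s D := by
    intro D
    induction D with
    | zero => simp
    | succ D ih =>
      rw [Finset.sum_range_succ, ih, Finset.sum_range_succ]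
      push_cast
      ring
  have hs0 : s 0 = 0 := by rw [hs, test_apply]; simp
  have hindD : ind A D = 0 := by
    unfold ind
    rw [if_neg]
    intro h
    exact lt_irrefl _ (hD2 D h)
  rw [h1, h2, h3, hs0, hindD]
  simp only [mul_zero, Int.cast_zero, zero_mul, sub_zero, zero_add]
  have h4 : ∀ n, ((ind A (n+1) - ind A n : ℤ) : ℝ) * s (n+1) =
      if n ∈ Finset.range B then ((|ind A (n+1) - ind A n| : ℤ) : ℝ) else 0 := by
    intro n
    rw [hs, test_apply]
    by_cases hn : n < B
    · rw [if_pos (by omega), if_pos (Finset.mem_range.2 hn)]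
      have : n + 1 - 1 = n := by omega
      rw [this]
      have h5 : (ind A (n+1) - ind A n) * (ind A (n+1) - ind A n) = |ind A (n+1) - ind A n| := by
        unfold ind
        split_ifs <;> simp
      rw [← h5]
      push_cast
      ring
    · rw [if_neg (by omega), if_neg (fun h => hn (Finset.mem_range.1 h))]
      simp
  simp_rw [h4]
  rw [Finset.sum_ite_mem]
  have h5 : Finset.range D ∩ Finset.range B = Finset.Ico 0 B := by
    rw [← Finset.range_eq_Ico]
    apply Finset.inter_eq_right.2
    intro n hn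
    rw [Finset.mem_range] at hn ⊢
    omega
  rw [h5]
  unfold V
  push_cast
  rfl

/-- Convergence preserving permutations have boundedly many blocks. -/
theorem bounded_jumps (σ : Equiv.Perm ℕ)
    (hσ : ∀ b : ℕ → ℝ, (∃ M : ℝ, Tendsto (fun n => ∑ i ∈ Finset.range n, b i) atTop (𝓝 M)) →
      ∃ M : ℝ, Tendsto (fun n => ∑ i ∈ Finset.range n, b (σ i)) atTop (𝓝 M)) :
    ∃ C : ℕ, ∀ t B, V 0 B (ind (img σ t)) ≤ C := by
  obtain ⟨C', hC'⟩ := banach_steinhaus (g := func σ) (by
    intro s
    have hs : Tendsto (fun n => s n) atTop (𝓝 0) := by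
      have := s.zero_at_infty'
      rw [Filter.cocompact_eq_cofinite, Nat.cofinite_eq_atTop] at this
      exact this
    obtain ⟨M, hM⟩ := hσ (fun n => s n - s (n+1)) (by
      refine ⟨s 0, ?_⟩
      have h1 : ∀ n, ∑ i ∈ Finset.range n, (s i - s (i+1)) = s 0 - s n := by
        intro n
        induction n with
        | zero => simp
        | succ n ih => rw [Finset.sum_range_succ, ih]; ring
      simp_rw [h1]
      simpa using (tendsto_const_nhds (x := s 0)).sub hs)
    have h2 := hM.norm.bddAbove_range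
    obtain ⟨K, hK⟩ := h2
    refine ⟨K, ?_⟩
    intro t
    exact hK ⟨t, rfl⟩)
  refine ⟨⌈C'⌉₊, ?_⟩
  intro t B
  have h1 : ((V 0 B (ind (img σ t)) : ℤ) : ℝ) ≤ C' := by
    rw [← func_test σ σ.injective t B]
    calc func σ t (test (img σ t) B) ≤ ‖func σ t (test (img σ t) B)‖ := le_abs_self _
      _ ≤ ‖func σ t‖ * ‖test (img σ t) B‖ := (func σ t).le_opNorm _
      _ ≤ ‖func σ t‖ * 1 := by
          apply mul_le_mul_of_nonneg_left (test_norm_le _ _)
          exact norm_nonneg (func σ t)
      _ ≤ C' := by rw [mul_one]; exact hC' t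
  have h2 : ((V 0 B (ind (img σ t)) : ℤ) : ℝ) ≤ ((⌈C'⌉₊ : ℕ) : ℝ) := h1.trans (Nat.le_ceil _)
  exact_mod_cast h2

end Pool.Agent.H57
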