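import Pool.Agent.H57.Limit

set_option autoImplicit false

namespace Pool.Agent.H57

open Finset Filter Topology

/-- Position of `x` among the cells cut out by the strictly increasing sequence `p`. -/
def idx (p : ℕ → ℕ) (x : ℕ) : ℕ := Nat.findGreatest (fun j => p j ≤ x) x

lemma idx_eq {p : ℕ → ℕ} (hp : StrictMono p) {j x : ℕ} (h1 : p j ≤ x) (h2 : x < p (j+1)) :
    idx p x = j := by
  unfold idx
  apply Nat.findGreatest_eq_iff.2
  refine ⟨(hp.le_apply).trans h1, fun _ => h1, ?_⟩
  intro n hn _ h3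
  have : p (j+1) ≤ p n := hp.monotone hn
  omega

lemma idx_spec {p : ℕ → ℕ} (hp : StrictMono p) {x : ℕ} (h0 : p 0 ≤ x) :
    p (idx p x) ≤ x ∧ x < p (idx p x + 1) := by
  unfold idx
  constructor
  · exact Nat.findGreatest_spec (P := fun j => p j ≤ x) (Nat.zero_le x) h0
  · by_contra hcon
    push Not at hcon
    have h1 : idx p x + 1 ≤ x := (hp.le_apply).trans hcon
    have h2 : idx p x + 1 ≤ Nat.findGreatest (fun j => p j ≤ x) x :=
      Nat.le_findGreatest (P := fun j => p j ≤ x) h1 hcon
    unfold idx at h2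
    omega

/-- End of the tile of depth `d` and level `k` that starts at `b`. -/
def E : ℕ → ℕ → ℕ → ℕ
  | 0, _, b => b + 1
  | d+1, k, b => (E d (k+1))^[(k+1) * (2 * b^2 + 1)] b

lemma iter_strictMono {g : ℕ → ℕ} (hg : ∀ b, b < g b) (b : ℕ) :
    StrictMono (fun j => g^[j] b) := by
  apply strictMono_nat_of_lt_succ
  intro n
  rw [Function.iterate_succ_apply']
  exact hg _

lemma lt_E : ∀ d k b, b < E d k b := by
  intro d
  induction d with
  | zero => intro k b; simp [E]
  | succ d ih =>
    intro k b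
    have hs := iter_strictMono (ih (k+1)) b
    have h1 : (E d (k+1))^[0] b < (E d (k+1))^[(k+1) * (2 * b^2 + 1)] b :=
      hs (by positivity)
    simpa [E] using h1

/-- Boundaries of the children of a tile of depth `d+1`. -/
def ch (d k b : ℕ) (j : ℕ) : ℕ := (E d (k+1))^[j] b

lemma ch_strictMono (d k b : ℕ) : StrictMono (ch d k b) := iter_strictMono (lt_E d (k+1)) b

lemma ch_zero (d k b : ℕ) : ch d k b 0 = b := rfl

lemma ch_succ (d k b j : ℕ) : ch d k b (j+1) = E d (k+1) (ch d k b j) := by
  unfold ch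
  rw [Function.iterate_succ_apply']

lemma ch_end (d k b : ℕ) : ch d k b ((k+1) * (2 * b^2 + 1)) = E (d+1) k b := rfl

/-- Sign pattern of the children: `N` ups, `N` downs, and so on. -/
def sg (N j : ℕ) : ℤ := if j % (2 * N) < N then 1 else -1

/-- Triangular wave. -/
def tri (N j : ℕ) : ℤ := if j % (2 * N) ≤ N then ((j % (2 * N) : ℕ) : ℤ)
  else 2 * (N : ℤ) - ((j % (2 * N) : ℕ) : ℤ)

lemma sg_or (N j : ℕ) : sg N j = 1 ∨ sg N j = -1 := by
  unfold sg; split_ifs <;> simp

lemma tri_succ (N j : ℕ) (hN : 0 < N) : tri N (j+1) = tri N j + sg N j := by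
  unfold tri sg
  have h1 : j % (2 * N) < 2 * N := Nat.mod_lt _ (by omega)
  have h2 : (j + 1) % (2 * N) = if j % (2 * N) + 1 = 2 * N then 0 else j % (2 * N) + 1 := by
    rw [Nat.add_mod]
    split_ifs with h
    · rcases Nat.lt_or_ge 1 (2*N) with h3 | h3
      · rw [Nat.mod_eq_of_lt h3, h, Nat.mod_self]
      · omega
    · rcases Nat.lt_or_ge 1 (2*N) with h3 | h3
      · rw [Nat.mod_eq_of_lt h3, Nat.mod_eq_of_lt (by omega)]
      · omega
  rw [h2]
  generalize j % (2 * N) = m at *
  split_ifs <;> push_cast <;> omega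

lemma tri_zero (N : ℕ) : tri N 0 = 0 := by simp [tri]

lemma tri_nonneg (N j : ℕ) (hN : 0 < N) : 0 ≤ tri N j := by
  unfold tri
  have h1 : j % (2 * N) < 2 * N := Nat.mod_lt _ (by omega)
  split_ifs <;> omega

lemma tri_le (N j : ℕ) : tri N j ≤ N := by
  unfold tri
  split_ifs <;> omega

lemma tri_odd (N m : ℕ) (hN : 0 < N) : tri N (N * (2 * m + 1)) = N := by
  have h1 : N * (2 * m + 1) % (2 * N) = N := by
    have : N * (2 * m + 1) = N + (2 * N) * m := by ring
    rw [this, Nat.add_mul_mod_self_left, Nat.mod_eq_of_lt (by omega)]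
  unfold tri
  rw [h1]
  simp

lemma sg_up (N r i : ℕ) (hi : i < N) : sg N (2 * N * r + i) = 1 := by
  unfold sg
  have : (2 * N * r + i) % (2 * N) = i := by
    rw [Nat.add_comm, Nat.add_mul_mod_self_left, Nat.mod_eq_of_lt (by omega)]
  rw [this]
  simp [hi]

/-- Scales. -/
noncomputable def dl (k : ℕ) : ℝ := 1 / (k.factorial : ℝ)

lemma dl_pos (k : ℕ) : 0 < dl k := by
  unfold dl
  have : 0 < (k.factorial : ℝ) := by exact_mod_cast k.factorial_pos
  positivity

lemma dl_succ (k : ℕ) : ((k : ℝ) + 1) * dl (k+1) = dl k := by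
  unfold dl
  have h1 : (k.factorial : ℝ) ≠ 0 := by exact_mod_cast k.factorial_ne_zero
  have h2 : ((k : ℝ) + 1) ≠ 0 := by positivity
  rw [Nat.factorial_succ]
  push_cast
  field_simp

lemma dl_tendsto : Tendsto dl atTop (𝓝 0) := by
  have h1 : Tendsto (fun k : ℕ => (k.factorial : ℝ)) atTop atTop :=
    tendsto_natCast_atTop_atTop.comp factorial_tendsto_atTop
  have h2 : dl = (fun k : ℕ => (k.factorial : ℝ))⁻¹ := by
    funext k
    simp [dl]
  rw [h2]
  exact h1.inv_tendsto_atTop

/-- Values of the sequence on the tile of depth `d`, level `k`, sign `ε`, start `b`. -/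
noncomputable def val : ℕ → ℕ → ℤ → ℕ → ℕ → ℝ
  | 0, k, ε, _, _ => (ε : ℝ) * dl k
  | d+1, k, ε, b, x =>
      val d (k+1) (ε * sg (k+1) (idx (ch d k b) x)) (ch d k b (idx (ch d k b) x)) x

lemma val_child (d k : ℕ) (ε : ℤ) (b j x : ℕ) (h1 : ch d k b j ≤ x) (h2 : x < ch d k b (j+1)) :
    val (d+1) k ε b x = val d (k+1) (ε * sg (k+1) j) (ch d k b j) x := by
  simp only [val]
  rw [idx_eq (ch_strictMono d k b) h1 h2]

lemma abs_val : ∀ d k (ε : ℤ) b x, (ε = 1 ∨ ε = -1) → |val d k ε b x| = dl (k+d) := by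
  intro d
  induction d with
  | zero =>
    intro k ε b x hε
    have := dl_pos k
    rcases hε with h | h <;> simp [val, h, abs_of_pos this]
  | succ d ih =>
    intro k ε b x hε
    simp only [val]
    rw [ih]
    · congr 1; omega
    · rcases hε with h | h <;> rcases sg_or (k+1) (idx (ch d k b) x) with h' | h' <;> simp [h, h']

lemma val_heights : ∀ d k (ε : ℤ) b, (ε = 1 ∨ ε = -1) →
    (∑ x ∈ Finset.Ico b (E d k b), val d k ε b x = ε * dl k) ∧
    ∀ x, b ≤ x → x ≤ E d k b →
      0 ≤ (ε : ℝ) * ∑ y ∈ Finset.Ico b x, val d k ε b y ∧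
        (ε : ℝ) * ∑ y ∈ Finset.Ico b x, val d k ε b y ≤ dl k := by
  intro d
  induction d with
  | zero =>
    intro k ε b hε
    have hp := dl_pos k
    have hεε : (ε : ℝ) * (ε : ℝ) = 1 := by
      rcases hε with h | h <;> simp [h]
    refine ⟨by simp [E, val], ?_⟩
    intro x hx1 hx2
    simp only [E] at hx2
    have : x = b ∨ x = b + 1 := by omega
    rcases this with h | h
    · subst h
      simp [hp.le]
    · subst h
      simp only [val, Nat.Ico_succ_singleton, Finset.sum_singleton]
      rw [← mul_assoc, hεε]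
      constructor <;> linarith
  | succ d ih =>
    intro k ε b hε
    have hεε : (ε : ℝ) * (ε : ℝ) = 1 := by
      rcases hε with h | h <;> simp [h]
    have hm := ch_strictMono d k b
    have hεj : ∀ j, (ε * sg (k+1) j = 1 ∨ ε * sg (k+1) j = -1) := by
      intro j
      rcases hε with h | h <;> rcases sg_or (k+1) j with h' | h' <;> simp [h, h']
    have hcell : ∀ j x, ch d k b j ≤ x → x ≤ ch d k b (j+1) →
        ∑ y ∈ Finset.Ico (ch d k b j) x, val (d+1) k ε b y =
          ∑ y ∈ Finset.Ico (ch d k b j) x, val d (k+1) (ε * sg (k+1) j) (ch d k b j) y := by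
      intro j x hx1 hx2
      apply Finset.sum_congr rfl
      intro y hy
      rw [Finset.mem_Ico] at hy
      exact val_child d k ε b j y hy.1 (lt_of_lt_of_le hy.2 hx2)
    have hsum : ∀ j, ∑ x ∈ Finset.Ico b (ch d k b j), val (d+1) k ε b x =
        (ε : ℝ) * dl (k+1) * (tri (k+1) j : ℝ) := by
      intro j
      induction j with
      | zero => simp [ch_zero, tri_zero]
      | succ j ihj =>
        have hb : b ≤ ch d k b j := by
          rw [← ch_zero d k b]; exact hm.monotone (Nat.zero_le _)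
        rw [← Finset.sum_Ico_consecutive _ hb (hm.monotone (Nat.le_succ j)), ihj,
          hcell j _ (hm.monotone (Nat.le_succ j)) le_rfl]
        have h1 := (ih (k+1) (ε * sg (k+1) j) (ch d k b j) (hεj j)).1
        rw [← ch_succ] at h1
        rw [h1, tri_succ _ _ (by omega : 0 < k + 1)]
        push_cast
        ring
    have hd := dl_succ k
    have hp := dl_pos (k+1)
    refine ⟨?_, ?_⟩
    · rw [← ch_end, hsum, tri_odd _ _ (by omega : 0 < k + 1)]
      rw [← hd]
      push_cast
      ring
    · intro x hx1 hx2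
      -- find the cell
      rcases Nat.lt_or_ge x (E (d+1) k b) with hlt | hge
      · obtain ⟨h1, h2⟩ := idx_spec hm (x := x) (by rw [ch_zero]; exact hx1)
        set j := idx (ch d k b) x with hj
        have hb : b ≤ ch d k b j := by
          rw [← ch_zero d k b]; exact hm.monotone (Nat.zero_le _)
        rw [← Finset.sum_Ico_consecutive _ hb h1, hsum, hcell j x h1 h2.le]
        obtain ⟨h3, h4⟩ := (ih (k+1) (ε * sg (k+1) j) (ch d k b j) (hεj j)).2 x h1
          (by rw [← ch_succ]; exact h2.le)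
        set S := ∑ y ∈ Finset.Ico (ch d k b j) x, val d (k+1) (ε * sg (k+1) j) (ch d k b j) y
        have ht0 := tri_nonneg (k+1) j (by omega : 0 < k + 1)
        have ht1 := tri_le (k+1) j
        have ht2 := tri_nonneg (k+1) (j+1) (by omega : 0 < k + 1)
        have ht3 := tri_le (k+1) (j+1)
        rw [tri_succ _ _ (by omega : 0 < k + 1)] at ht2 ht3
        have e0 : (0 : ℝ) ≤ (tri (k+1) j : ℝ) := by exact_mod_cast ht0
        have e1 : (tri (k+1) j : ℝ) ≤ (k : ℝ) + 1 := by exact_mod_cast ht1
        have hexp : (ε : ℝ) * ((ε : ℝ) * dl (k+1) * (tri (k+1) j : ℝ) + S) =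
            dl (k+1) * (tri (k+1) j : ℝ) + (ε : ℝ) * S := by
          have : (ε : ℝ) * ((ε : ℝ) * dl (k+1) * (tri (k+1) j : ℝ) + S) =
            ((ε : ℝ) * (ε : ℝ)) * (dl (k+1) * (tri (k+1) j : ℝ)) + (ε : ℝ) * S := by ring
          rw [this, hεε, one_mul]
        rw [hexp]
        rcases sg_or (k+1) j with h' | h'
        · rw [h'] at h3 h4 ht2 ht3
          simp only [mul_one] at h3 h4
          have e3 : (tri (k+1) j : ℝ) + 1 ≤ (k : ℝ) + 1 := by exact_mod_cast ht3
          constructor
          · have := mul_nonneg hp.le e0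
            linarith
          · have := mul_le_mul_of_nonneg_left e3 hp.le
            rw [← hd]
            linarith
        · rw [h'] at h3 h4 ht2 ht3
          have h3' : 0 ≤ -((ε : ℝ) * S) := by
            have : ((ε * -1 : ℤ) : ℝ) * S = -((ε : ℝ) * S) := by push_cast; ring
            rw [← this]; exact h3
          have h4' : -((ε : ℝ) * S) ≤ dl (k+1) := by
            have : ((ε * -1 : ℤ) : ℝ) * S = -((ε : ℝ) * S) := by push_cast; ring
            rw [← this]; exact h4
          have e2 : (1 : ℝ) ≤ (tri (k+1) j : ℝ) := by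
            have : 1 ≤ tri (k+1) j := by omega
            exact_mod_cast this
          constructor
          · have := mul_le_mul_of_nonneg_left e2 hp.le
            linarith
          · have := mul_le_mul_of_nonneg_left e1 hp.le
            rw [← hd]
            linarith
      · have hxe : x = E (d+1) k b := le_antisymm hx2 hge
        rw [hxe, ← ch_end, hsum, tri_odd _ _ (by omega : 0 < k + 1)]
        have : (ε : ℝ) * ((ε : ℝ) * dl (k+1) * (((k+1 : ℕ) : ℤ) : ℝ)) =
            ((ε : ℝ) * (ε : ℝ)) * (((k : ℝ) + 1) * dl (k+1)) := by push_cast; ring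
        rw [this, hεε, hd]
        have := dl_pos k
        constructor <;> linarith

end Pool.Agent.H57
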