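import Pool.Agent.H57.Localize

set_option autoImplicit false

namespace Pool.Agent.H57

open Finset

/-- A hierarchical system of tiles. -/
structure TileSys (c : ℕ → ℝ) (δ : ℕ → ℝ) (T : ℕ → ℕ → ℕ → ℕ → Prop) : Prop where
  tiles : ∀ κ D, Tiles c (δ κ) (T κ D)
  pos : ∀ κ, 0 < δ κ
  runs : ∀ κ D b b', T κ (D+1) b b' → ∃ (p : ℕ → ℕ) (ε : ℤ), Monotone p ∧ (ε = 1 ∨ ε = -1) ∧
    p 0 = b ∧ p ((κ+1) * (2 * b^2 + 1)) = b' ∧
    (∀ j, j < (κ+1) * (2 * b^2 + 1) → T (κ+1) D (p j) (p (j+1))) ∧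
    (∀ r i, r ≤ b^2 → i < κ+1 →
      ∑ x ∈ Finset.Ico (p (2*(κ+1)*r+i)) (p (2*(κ+1)*r+i+1)), c x = ε * δ (κ+1))

lemma exists_mixed {f : ℕ → ℕ → ℤ} {P : ℕ} (hf : Proc f P) (b b' t0 t1 : ℕ) (hb : b + 2 ≤ b')
    (ht : t0 ≤ t1) (α β : ℤ) (hαβ : α ≠ β) (h0 : IsC (f t0) b b' α) (h1 : IsC (f t1) b b' β) :
    ∃ t, t0 ≤ t ∧ t ≤ t1 ∧ Mixed (f t) b b' := by
  classical
  have hex : ∃ t, t0 ≤ t ∧ IsC (f t) b b' β := ⟨t1, ht, h1⟩
  set t5 := Nat.find hex with ht5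
  have hspec := Nat.find_spec hex
  rw [← ht5] at hspec
  have ht51 : t5 ≤ t1 := Nat.find_min' hex ⟨ht, h1⟩
  have hne0 : t5 ≠ t0 := by
    intro h
    have e1 := hspec.2 b le_rfl (by omega)
    rw [h] at e1
    exact hαβ ((h0 b le_rfl (by omega)).symm.trans e1)
  obtain ⟨s, hs⟩ : ∃ s, t5 = s + 1 := ⟨t5 - 1, by omega⟩
  have hsnot : ¬ IsC (f s) b b' β := by
    intro h
    have : t5 ≤ s := Nat.find_min' hex ⟨by omega, h⟩
    omega
  refine ⟨s, by omega, by omega, ?_⟩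
  by_contra hm
  have hcst : ∀ x x', b ≤ x → x < b' → b ≤ x' → x' < b' → f s x = f s x' := by
    intro x x' g1 g2 g3 g4
    by_contra hne
    exact hm ⟨x, x', g1, g2, g3, g4, hne⟩
  have hbne : f s b ≠ β := by
    intro h
    apply hsnot
    intro x g1 g2
    rw [hcst x b g1 g2 le_rfl (by omega), h]
  have e1 := hspec.2
  rw [hs] at e1
  have := hf.one s b (b+1) (by rw [e1 b le_rfl (by omega)]; exact hbne)
    (by
      rw [e1 (b+1) (by omega) (by omega), hcst (b+1) b (by omega) (by omega) le_rfl (by omega)]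
      exact hbne)
  omega

theorem claim {f : ℕ → ℕ → ℤ} {P : ℕ} (hf : Proc f P) {c : ℕ → ℝ} {δ : ℕ → ℝ}
    {T : ℕ → ℕ → ℕ → ℕ → Prop} (hS : TileSys c δ T) (b0 tstar kmax : ℕ) (hb0 : 2 * P ≤ b0)
    (hwin : ∀ s t, tstar ≤ s → tstar ≤ t → ∀ B, (∀ x, B ≤ x → f s x = 0 ∧ f t x = 0) →
      ∀ κ, κ ≤ kmax → |∑ x ∈ Finset.range B, ((f s x - f t x : ℤ) : ℝ) * c x| ≤ δ κ) :
    ∀ m κ, 40 * P + 40 ≤ κ + 1 → κ + 1 + m ≤ kmax → ∀ (y : ℕ → ℕ), Monotone y → ∀ (ε : ℤ),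
      (ε = 1 ∨ ε = -1) → (∀ i, i < κ + 1 → T (κ+1) m (y i) (y (i+1))) →
      (∀ i, i < κ + 1 → ∑ x ∈ Finset.Ico (y i) (y (i+1)), c x = ε * δ (κ+1)) →
      b0 ≤ y 0 → ∀ a, a ≤ y 0 → ∀ t0 t1, tstar ≤ t0 → t0 ≤ t1 →
      (∀ x, x < a → ∀ t, t0 ≤ t → t ≤ t1 → f t x = f t0 x) →
      ∀ α β, α ≠ β → IsC (f t0) (y 0) (y (κ+1)) α → IsC (f t1) (y 0) (y (κ+1)) β →
      ∃ t, t0 ≤ t ∧ t ≤ t1 ∧ Mixed (f t) (y 0) (y (κ+1)) ∧ ∃ B, (m : ℤ) ≤ V a B (f t) := by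
  intro m
  induction m with
  | zero =>
    intro κ hκ _ y hym ε hε hy hinc hby a ha t0 t1 htt ht hstat α β hαβ h0 h1
    have hlen : y 0 + 2 ≤ y (κ+1) := by
      have g1 := (hS.tiles (κ+1) 0).lt _ _ (hy 0 (by omega))
      have g2 := (hS.tiles (κ+1) 0).lt _ _ (hy 1 (by omega))
      have g3 : y 2 ≤ y (κ+1) := hym (by omega)
      simp only [zero_add] at g1 g2
      have g4 : y (1+1) = y 2 := rfl
      omega
    obtain ⟨t, g1, g2, g3⟩ := exists_mixed hf (y 0) (y (κ+1)) t0 t1 hlen ht α β hαβ h0 h1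
    exact ⟨t, g1, g2, g3, 0, by simpa using V_nonneg a 0 (f t)⟩
  | succ m ih =>
    intro κ hκ hkmax y hym ε hε hy hinc hby a ha t0 t1 htt ht hstat α β hαβ h0 h1
    obtain ⟨b, b', t2, t3, α', β', hTb, hyb, ht2, ht23, ht3, hαβ', hC2, hC3, hmix⟩ :=
      find_tile hf (hS.tiles (κ+1) (m+1)) (hS.pos (κ+1)) y hym (κ+1) hκ ε hε hy hinc a ha t0 t1 ht
        (fun s t g1 g2 g3 g4 B hB => hwin s t (htt.trans g1) (htt.trans g3) B hB (κ+1) (by omega))
        hstat α β hαβ h0 h1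
    obtain ⟨p, ε', hpm, hε', hp0, hpe, hpT, hpinc⟩ := hS.runs (κ+1) m b b' hTb
    have hbb0 : b0 ≤ b := hby.trans hyb
    have hq : 2 * b * P < b^2 + 1 := by
      have : 2 * P ≤ b := hb0.trans hbb0
      nlinarith
    have hidx : ∀ r, r < b^2 + 1 → 2*(κ+1+1)*r + (κ+1+1) ≤ (κ+1+1) * (2 * b^2 + 1) := by
      intro r hr
      have : r ≤ b^2 := by omega
      nlinarith
    obtain ⟨r, hr, t4, t5, ht4, ht45, ht5, hC4, hC5, hst⟩ :=
      localize hf b t2 t3 ht23 (b^2+1) hq (fun r => p (2*(κ+1+1)*r))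
        (fun r => p (2*(κ+1+1)*r + (κ+1+1)))
        (fun r s hrs => hpm (Nat.mul_le_mul_left _ hrs))
        (by simp [hp0])
        (by
          intro r hr
          have g1 := (hS.tiles (κ+1+1) m).lt _ _ (hpT (2*(κ+1+1)*r) (by
            have := hidx r hr
            omega))
          exact lt_of_lt_of_le g1 (hpm (by omega)))
        (by
          intro r hr
          apply hpm
          ring_nf
          omega)
        α' β' hαβ'
        (by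
          intro r hr x hx1 hx2
          apply hC2 x
          · rw [← hp0]; exact (hpm (Nat.zero_le _)).trans hx1
          · rw [← hpe]; exact lt_of_lt_of_le hx2 (hpm (hidx r hr)))
        (by
          intro r hr x hx1 hx2
          apply hC3 x
          · rw [← hp0]; exact (hpm (Nat.zero_le _)).trans hx1
          · rw [← hpe]; exact lt_of_lt_of_le hx2 (hpm (hidx r hr)))
    have hpb : b ≤ p (2*(κ+1+1)*r) := by
      rw [← hp0]; exact hpm (Nat.zero_le _)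
    obtain ⟨t, g1, g2, g3, B, g4⟩ := ih (κ+1) (by omega) (by omega)
      (fun i => p (2*(κ+1+1)*r + i))
      (fun i j hij => hpm (Nat.add_le_add_left hij _)) ε' hε'
      (fun i hi => by
        have := hpT (2*(κ+1+1)*r + i) (by
          have := hidx r hr
          omega)
        simpa [add_assoc] using this)
      (fun i hi => by
        have := hpinc r i (by omega) hi
        simpa [add_assoc] using this)
      (by simpa using hbb0.trans hpb) b (by simpa using hpb) t4 t5 (by omega) ht45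
      (fun x hx t g1 g2 => hst x hx t g1 g2) α' β' hαβ'
      (by simpa using hC4) (by simpa using hC5)
    have hmixb : Mixed (f t) b b' := by
      obtain ⟨x, x', e1, e2, e3, e4, e5⟩ := g3
      simp only [add_zero] at e1 e3
      refine ⟨x, x', hpb.trans e1, ?_, hpb.trans e3, ?_, e5⟩
      · rw [← hpe]; exact lt_of_lt_of_le e2 (hpm (hidx r hr))
      · rw [← hpe]; exact lt_of_lt_of_le e4 (hpm (hidx r hr))
    obtain ⟨hV1, hMX⟩ := hmix t (by omega) (by omega) hmixb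
    refine ⟨t, by omega, by omega, hMX, max b B, ?_⟩
    have e1 : V b B (f t) ≤ V b (max b B) (f t) := V_mono _ le_rfl (le_max_right _ _)
    have e2 : V a b (f t) + V b (max b B) (f t) = V a (max b B) (f t) :=
      V_add _ (ha.trans hyb) (le_max_left _ _)
    push_cast
    linarith

/-- No long monotone run of tiles can be crossed. -/
theorem no_crossing {f : ℕ → ℕ → ℤ} {P : ℕ} (hf : Proc f P) {c : ℕ → ℝ} {δ : ℕ → ℝ}
    {T : ℕ → ℕ → ℕ → ℕ → Prop} (hS : TileSys c δ T) (b0 tstar : ℕ) (hb0 : 2 * P ≤ b0)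
    (κ : ℕ) (hκ : 40 * P + 40 ≤ κ + 1)
    (hwin : ∀ s t, tstar ≤ s → tstar ≤ t → ∀ B, (∀ x, B ≤ x → f s x = 0 ∧ f t x = 0) →
      ∀ κ', κ' ≤ κ + 1 + (P + 1) →
        |∑ x ∈ Finset.range B, ((f s x - f t x : ℤ) : ℝ) * c x| ≤ δ κ')
    (b b' : ℕ) (hT : T κ (P + 2) b b') (hb : b0 ≤ b) (t0 t1 : ℕ) (htt : tstar ≤ t0) (ht : t0 ≤ t1)
    (α β : ℤ) (hαβ : α ≠ β) (h0 : IsC (f t0) b b' α) (h1 : IsC (f t1) b b' β) : False := by
  obtain ⟨p, ε, hpm, hε, hp0, hpe, hpT, hpinc⟩ := hS.runs κ (P+1) b b' hT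
  have hle : κ + 1 ≤ (κ+1) * (2 * b^2 + 1) := by nlinarith [Nat.zero_le ((κ+1) * b^2)]
  obtain ⟨t, _, _, _, B, g4⟩ := claim hf hS b0 tstar (κ + 1 + (P+1)) hb0 hwin (P+1) κ hκ le_rfl p hpm ε hε
    (fun i hi => hpT i (by omega))
    (fun i hi => by simpa using hpinc 0 i (Nat.zero_le _) hi)
    (by rw [hp0]; exact hb) 0 (Nat.zero_le _) t0 t1 htt ht (fun x hx => absurd hx (Nat.not_lt_zero x)) α β hαβ
    (fun x hx1 hx2 => h0 x (by rw [← hp0]; exact hx1)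
      (by rw [← hpe]; exact lt_of_lt_of_le hx2 (hpm hle)))
    (fun x hx1 hx2 => h1 x (by rw [← hp0]; exact hx1)
      (by rw [← hpe]; exact lt_of_lt_of_le hx2 (hpm hle)))
  have := hf.var t B
  push_cast at g4
  omega

end Pool.Agent.H57
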