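import Pool.Agent.H57.StaticTwo

set_option autoImplicit false

namespace Pool.Agent.H57

open Finset

/-- Abstract properties of the difference function of a bounded block process. -/
structure Proc (f : ℕ → ℕ → ℤ) (P : ℕ) : Prop where
  bd : ∀ t x, |f t x| ≤ 1
  var : ∀ t B, V 0 B (f t) ≤ P
  mono : ∀ x t0 t t' t1, t0 ≤ t → t ≤ t' → t' ≤ t1 → f t0 x ≠ f t1 x →
    (f t x = f t0 x ∨ f t x = f t1 x) ∧ (f t x = f t1 x → f t' x = f t1 x)
  one : ∀ t x y, f t x ≠ f (t+1) x → f t y ≠ f (t+1) y → x = y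
  few : ∀ b, ∃ Θ : Finset ℕ, Θ.card ≤ 2 * b ∧ ∀ t x, x < b → f t x ≠ f (t+1) x → t ∈ Θ
  supp : ∀ t1, ∃ B, ∀ t, t ≤ t1 → ∀ x, B ≤ x → f t x = 0

lemma half {f : ℕ → ℕ → ℤ} {P : ℕ} (hf : Proc f P) {c : ℕ → ℝ} {δ : ℝ} {T : ℕ → ℕ → Prop}
    (hT : Tiles c δ T) (hδ : 0 < δ)
    (y : ℕ → ℕ) (hym : Monotone y) (N : ℕ) (ε : ℤ) (hε : ε = 1 ∨ ε = -1)
    (hy : ∀ i, i < N → T (y i) (y (i+1)))
    (hinc : ∀ i, i < N → ∑ x ∈ Finset.Ico (y i) (y (i+1)), c x = ε * δ)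
    (a : ℕ) (ha : a ≤ y 0) (t0 t1 : ℕ)
    (hwin : ∀ s t, t0 ≤ s → s ≤ t1 → t0 ≤ t → t ≤ t1 → ∀ B, (∀ x, B ≤ x → f s x = 0 ∧ f t x = 0) →
      |∑ x ∈ Finset.range B, ((f s x - f t x : ℤ) : ℝ) * c x| ≤ δ)
    (hstat : ∀ x, x < a → ∀ t, t0 ≤ t → t ≤ t1 → f t x = f t0 x)
    (γ γ' : ℤ) (hγ : γ ≠ γ')
    (hval : ∀ t, t0 ≤ t → t ≤ t1 → ∀ x, y 0 ≤ x → x < y N → f t x = γ ∨ f t x = γ')
    (r : ℕ → ℕ → Prop) (hr : ∀ s t, r s t ∨ r t s)
    (hpers : ∀ x, y 0 ≤ x → x < y N → ∀ s t, t0 ≤ s → s ≤ t1 → t0 ≤ t → t ≤ t1 → r s t →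
      f s x = γ → f t x = γ)
    (τ : ℕ → ℕ) (hτ : ∀ i, i < N → t0 ≤ τ i ∧ τ i ≤ t1)
    (hmix : ∀ i, i < N → Mixed (f (τ i)) (y i) (y (i+1)))
    (hV0 : ∀ i, i < N → V a (y i) (f (τ i)) = 0)
    (hcr : ∀ s t, t0 ≤ s → s ≤ t1 → t0 ≤ t → t ≤ t1 → r s t → ∀ b b', T b b' → y 0 ≤ b →
      ∀ α' β', α' ≠ β' → IsC (f s) b b' α' → IsC (f t) b b' β' →
      ∃ u, t0 ≤ u ∧ u ≤ t1 ∧ r s u ∧ r u t ∧ Mixed (f u) b b' ∧
        (1 ≤ V a b (f u) → ¬ Mixed (f u) (y 0) (y N)))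
    (J : Finset ℕ) (hJ : ∀ i ∈ J, i < N ∧ f (τ i) (y 0) = γ) :
    J.card ≤ 19 * P + 8 := by
  classical
  by_contra hcard
  push Not at hcard
  have hJne : J.Nonempty := by
    rw [← Finset.card_pos]; omega
  -- constancy on [a, y i]
  have hconst : ∀ i ∈ J, ∀ x, a ≤ x → x ≤ y i → f (τ i) x = γ := by
    intro i hi x hx1 hx2
    obtain ⟨hiN, hi0⟩ := hJ i hi
    have e := eq_of_V_eq_zero (hV0 i hiN)
    have e1 := e x hx1 hx2
    have e2 := e (y 0) ha (hym (Nat.zero_le _))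
    rw [e1, ← e2, hi0]
  set i1 := J.min' hJne with hi1
  set j1 := J.max' hJne with hj1
  have hi1J : i1 ∈ J := J.min'_mem hJne
  have hj1J : j1 ∈ J := J.max'_mem hJne
  have hi1N := (hJ i1 hi1J).1
  have hj1N := (hJ j1 hj1J).1
  have hij : i1 < j1 := by
    have : 1 < J.card := by omega
    exact Finset.min'_lt_max'_of_card J this
  -- a mixed tile has both values
  have both : ∀ i, i < N → (∃ x, y i ≤ x ∧ x < y (i+1) ∧ f (τ i) x = γ) ∧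
      (∃ x, y i ≤ x ∧ x < y (i+1) ∧ f (τ i) x ≠ γ) := by
    intro i hi
    obtain ⟨x, x', h1, h2, h3, h4, h5⟩ := hmix i hi
    have hx := hval (τ i) (hτ i hi).1 (hτ i hi).2 x ((hym (Nat.zero_le _)).trans h1)
      (lt_of_lt_of_le h2 (hym (by omega)))
    have hx' := hval (τ i) (hτ i hi).1 (hτ i hi).2 x' ((hym (Nat.zero_le _)).trans h3)
      (lt_of_lt_of_le h4 (hym (by omega)))
    rcases hx with hx | hx
    · refine ⟨⟨x, h1, h2, hx⟩, ⟨x', h3, h4, ?_⟩⟩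
      intro h; exact h5 (hx.trans h.symm)
    · rcases hx' with hx' | hx'
      · refine ⟨⟨x', h3, h4, hx'⟩, ⟨x, h1, h2, ?_⟩⟩
        intro h; exact h5 (h.trans hx'.symm)
      · exact absurd (hx.trans hx'.symm) h5
  have horder : ∀ j ∈ J, i1 < j → r (τ i1) (τ j) := by
    intro j hj hlt
    rcases hr (τ i1) (τ j) with h | h
    · exact h
    · exfalso
      obtain ⟨x, hx1, hx2, hx3⟩ := (both i1 hi1N).2
      have h1 : f (τ j) x = γ := hconst j hj x (ha.trans ((hym (Nat.zero_le _)).trans hx1))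
        (hx2.le.trans (hym (by omega)))
      have hjN := (hJ j hj).1
      exact hx3 (hpers x ((hym (Nat.zero_le _)).trans hx1) (lt_of_lt_of_le hx2 (hym (by omega)))
        (τ j) (τ i1) (hτ j hjN).1 (hτ j hjN).2 (hτ i1 hi1N).1 (hτ i1 hi1N).2 h h1)
  obtain ⟨B0, hB0⟩ := hf.supp t1
  have hfinal := static_two hT hδ y hym N ε hε hy hinc a ha (f (τ j1)) (f (τ i1))
    (hf.bd _) (hf.bd _) P (hf.var _) (hf.var _) B0
    (fun x hx => by
      rw [hstat x hx _ (hτ j1 hj1N).1 (hτ j1 hj1N).2, hstat x hx _ (hτ i1 hi1N).1 (hτ i1 hi1N).2])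
    i1 j1 hij hj1N γ' γ (Ne.symm hγ) (hconst i1 hi1J) (hconst j1 hj1J)
    (fun x hx1 hx2 => (hval _ (hτ i1 hi1N).1 (hτ i1 hi1N).2 x hx1 hx2).symm)
    ((J.erase i1).erase j1)
    (by
      intro j hj
      rw [Finset.mem_erase, Finset.mem_erase] at hj
      obtain ⟨hjj1, hji1, hjJ⟩ := hj
      have h1 : i1 < j := lt_of_le_of_ne (J.min'_le j hjJ) (Ne.symm hji1)
      have h2 : j < j1 := lt_of_le_of_ne (J.le_max' j hjJ) hjj1
      have hjN := (hJ j hjJ).1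
      refine ⟨h1, h2, ?_⟩
      obtain ⟨x, hx1, hx2, hx3⟩ := (both j hjN).2
      refine ⟨x, hx1, hx2, ?_⟩
      intro hx4
      exact hx3 (hpers x ((hym (Nat.zero_le _)).trans hx1) (lt_of_lt_of_le hx2 (hym (by omega)))
        (τ i1) (τ j) (hτ i1 hi1N).1 (hτ i1 hi1N).2 (hτ j hjN).1 (hτ j hjN).2 (horder j hjJ h1) hx4))
    (by
      intro b b' hb hTb α' β' hα' hβ'
      by_contra hne
      obtain ⟨u, hu0, hu1, hru1, hru2, _, hu4⟩ := hcr (τ i1) (τ j1) (hτ i1 hi1N).1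
        (hτ i1 hi1N).2 (hτ j1 hj1N).1 (hτ j1 hj1N).2 (horder j1 hj1J hij) b b' hTb
        ((hym (Nat.zero_le _)).trans hb) α' β' hne hα' hβ'
      -- f u is constant on the two tiles
      have hcst : ∀ x x', y i1 ≤ x → x < y (j1+1) → y i1 ≤ x' → x' < y (j1+1) →
          f u x = f u x' := by
        intro x x' hx1 hx2 hx1' hx2'
        by_contra hxx
        have h1 : 1 ≤ V a b (f u) := one_le_V_of_ne
          (ha.trans ((hym (Nat.zero_le _)).trans hx1)) (hx2.le.trans hb)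
          (ha.trans ((hym (Nat.zero_le _)).trans hx1')) (hx2'.le.trans hb) hxx
        exact hu4 h1 ⟨x, x', (hym (Nat.zero_le _)).trans hx1,
          lt_of_lt_of_le hx2 (hym (by omega)), (hym (Nat.zero_le _)).trans hx1',
          lt_of_lt_of_le hx2' (hym (by omega)), hxx⟩
      obtain ⟨x, hx1, hx2, hx3⟩ := (both i1 hi1N).1
      have hux : f u x = γ := hpers x ((hym (Nat.zero_le _)).trans hx1)
        (lt_of_lt_of_le hx2 (hym (by omega))) (τ i1) u (hτ i1 hi1N).1 (hτ i1 hi1N).2 hu0 hu1 hru1 hx3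
      obtain ⟨z, hz1, hz2, hz3⟩ := (both j1 hj1N).2
      have huz : f u z = γ := by
        rw [← hux]
        exact hcst z x ((hym hij.le).trans hz1) hz2 hx1 (lt_of_lt_of_le hx2 (hym (by omega)))
      exact hz3 (hpers z ((hym (Nat.zero_le _)).trans hz1)
        (lt_of_lt_of_le hz2 (hym (by omega))) u (τ j1) hu0 hu1 (hτ j1 hj1N).1 (hτ j1 hj1N).2
        hru2 huz))
    (by
      intro B hB
      exact hwin (τ j1) (τ i1) (hτ j1 hj1N).1 (hτ j1 hj1N).2 (hτ i1 hi1N).1 (hτ i1 hi1N).2 B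
        (fun x hx => ⟨hB0 _ (hτ j1 hj1N).2 x (hB.trans hx), hB0 _ (hτ i1 hi1N).2 x (hB.trans hx)⟩))
  have h1 : ((J.erase i1).erase j1).card = J.card - 2 := by
    rw [Finset.card_erase_of_mem, Finset.card_erase_of_mem hi1J]
    · omega
    · exact Finset.mem_erase.2 ⟨hij.ne', hj1J⟩
  omega

end Pool.Agent.H57
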