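import Pool.Agent.H57.Series
import Pool.Agent.H57.Blocks

set_option autoImplicit false

namespace Pool.Agent.H57

open Finset Filter Topology

/-- The difference function of the process given by a permutation. -/
def ff (σ : Equiv.Perm ℕ) (t x : ℕ) : ℤ := ind (img σ t) (ep x) - ind (img σ t) (em x)

lemma mem_img_iff (σ : Equiv.Perm ℕ) (t n : ℕ) : n ∈ img σ t ↔ σ.symm n < t := by
  unfold img
  rw [Finset.mem_image]
  constructor
  · rintro ⟨i, hi, rfl⟩
    rw [Equiv.symm_apply_apply]
    exact Finset.mem_range.1 hi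
  · intro h
    exact ⟨σ.symm n, Finset.mem_range.2 h, σ.apply_symm_apply n⟩

lemma ind_img (σ : Equiv.Perm ℕ) (t n : ℕ) :
    ind (img σ t) n = if σ.symm n < t then 1 else 0 := by
  unfold ind
  by_cases h : σ.symm n < t
  · rw [if_pos h, if_pos ((mem_img_iff σ t n).2 h)]
  · rw [if_neg h, if_neg (fun h' => h ((mem_img_iff σ t n).1 h'))]

lemma ff_eq (σ : Equiv.Perm ℕ) (t x : ℕ) :
    ff σ t x = (if σ.symm (ep x) < t then 1 else 0) - (if σ.symm (em x) < t then 1 else 0) := by
  unfold ff
  rw [ind_img, ind_img]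

lemma ff_change (σ : Equiv.Perm ℕ) (t x : ℕ) (h : ff σ t x ≠ ff σ (t+1) x) :
    σ.symm (ep x) = t ∨ σ.symm (em x) = t := by
  rw [ff_eq, ff_eq] at h
  by_contra hcon
  push Not at hcon
  apply h
  obtain ⟨h1, h2⟩ := hcon
  have e1 : (σ.symm (ep x) < t) ↔ (σ.symm (ep x) < t + 1) := by omega
  have e2 : (σ.symm (em x) < t) ↔ (σ.symm (em x) < t + 1) := by omega
  simp only [e1, e2]

lemma ff_proc (σ : Equiv.Perm ℕ) (C : ℕ) (hC : ∀ t B, V 0 B (ind (img σ t)) ≤ C) :
    Proc (ff σ) (2 * C) where
  bd := by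
    intro t x
    rw [ff_eq]
    split_ifs <;> simp
  var := by
    intro t B
    have h1 : V 0 B (ff σ t) ≤ V 0 B (fun x => ind (img σ t) (ep x)) +
        V 0 B (fun x => ind (img σ t) (em x)) := V_sub_le 0 B _ _
    have h2 := V_comp_le ep_strictMono.monotone (ind (img σ t)) 0 B (Nat.zero_le _)
    have h3 := V_comp_le em_strictMono.monotone (ind (img σ t)) 0 B (Nat.zero_le _)
    have h4 : V (ep 0) (ep B) (ind (img σ t)) ≤ C :=
      (V_mono _ (Nat.zero_le _) le_rfl).trans (hC t _)
    have h5 : V (em 0) (em B) (ind (img σ t)) ≤ C :=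
      (V_mono _ (Nat.zero_le _) le_rfl).trans (hC t _)
    push_cast
    linarith
  mono := by
    intro x t0 t t' t1 h1 h2 h3 hne
    simp only [ff_eq] at *
    generalize σ.symm (ep x) = u at *
    generalize σ.symm (em x) = v at *
    split_ifs at * <;> omega
  one := by
    intro t x y hx hy
    have ex : pj (σ t) = x := by
      rcases ff_change σ t x hx with h | h
      · rw [← h, Equiv.apply_symm_apply, pj_ep]
      · rw [← h, Equiv.apply_symm_apply, pj_em]
    have ey : pj (σ t) = y := by
      rcases ff_change σ t y hy with h | h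
      · rw [← h, Equiv.apply_symm_apply, pj_ep]
      · rw [← h, Equiv.apply_symm_apply, pj_em]
    rw [← ex, ← ey]
  few := by
    intro b
    classical
    refine ⟨(Finset.range b).image (fun x => σ.symm (ep x)) ∪
      (Finset.range b).image (fun x => σ.symm (em x)), ?_, ?_⟩
    · refine (Finset.card_union_le _ _).trans ?_
      have h1 := Finset.card_image_le (s := Finset.range b) (f := fun x => σ.symm (ep x))
      have h2 := Finset.card_image_le (s := Finset.range b) (f := fun x => σ.symm (em x))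
      rw [Finset.card_range] at h1 h2
      omega
    · intro t x hx h
      rw [Finset.mem_union, Finset.mem_image, Finset.mem_image]
      rcases ff_change σ t x h with h | h
      · left; exact ⟨x, Finset.mem_range.2 hx, h⟩
      · right; exact ⟨x, Finset.mem_range.2 hx, h⟩
  supp := by
    intro t1
    refine ⟨(img σ t1).sup id + 1, ?_⟩
    intro t ht x hx
    have h1 : ∀ n, x ≤ n → ¬ σ.symm n < t := by
      intro n hn hlt
      have hmem : n ∈ img σ t1 := (mem_img_iff σ t1 n).2 (lt_of_lt_of_le hlt ht)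
      have : n ≤ (img σ t1).sup id := Finset.le_sup (f := id) hmem
      omega
    rw [ff_eq, if_neg (h1 (ep x) ep_strictMono.le_apply), if_neg (h1 (em x) em_strictMono.le_apply)]
    simp

lemma ff_step (σ : Equiv.Perm ℕ) (t x : ℕ) :
    (ff σ (t+1) x : ℝ) * cs x = (ff σ t x : ℝ) * cs x + if x = pj (σ t) then as (σ t) else 0 := by
  by_cases hx : x = pj (σ t)
  · rw [if_pos hx]
    rcases cover (σ t) with h | h
    · rw [← hx] at h
      have e1 : σ.symm (ep x) = t := by rw [← h, Equiv.symm_apply_apply]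
      have e2 : σ.symm (em x) ≠ t := by
        intro h2
        have : em x = σ t := by rw [← h2, Equiv.apply_symm_apply]
        exact ep_ne_em x x (h.symm.trans this.symm)
      rw [ff_eq, ff_eq, h, as_ep, e1]
      have e3 : (σ.symm (em x) < t + 1) ↔ (σ.symm (em x) < t) := by omega
      simp only [e3, lt_irrefl, Nat.lt_succ_self, if_true, if_false]
      push_cast
      ring
    · rw [← hx] at h
      have e1 : σ.symm (em x) = t := by rw [← h, Equiv.symm_apply_apply]
      have e2 : σ.symm (ep x) ≠ t := by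
        intro h2
        have : ep x = σ t := by rw [← h2, Equiv.apply_symm_apply]
        exact ep_ne_em x x (this.trans h)
      rw [ff_eq, ff_eq, h, as_em, e1]
      have e3 : (σ.symm (ep x) < t + 1) ↔ (σ.symm (ep x) < t) := by omega
      simp only [e3, lt_irrefl, Nat.lt_succ_self, if_true, if_false]
      push_cast
      ring
  · rw [if_neg hx, add_zero]
    have h1 : ff σ (t+1) x = ff σ t x := by
      by_contra hne
      apply hx
      rcases ff_change σ t x (fun h => hne h.symm) with h | h
      · rw [← h, Equiv.apply_symm_apply, pj_ep]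
      · rw [← h, Equiv.apply_symm_apply, pj_em]
    rw [h1]

lemma ff_sum (σ : Equiv.Perm ℕ) (B : ℕ) : ∀ t, (∀ i, i < t → pj (σ i) < B) →
    ∑ x ∈ Finset.range B, (ff σ t x : ℝ) * cs x = ∑ i ∈ Finset.range t, as (σ i) := by
  intro t
  induction t with
  | zero =>
    intro _
    simp [ff_eq]
  | succ t ih =>
    intro h
    rw [Finset.sum_range_succ, ← ih (fun i hi => h i (by omega))]
    simp_rw [ff_step]
    rw [Finset.sum_add_distrib]
    congr 1
    rw [Finset.sum_ite_eq' (Finset.range B) (pj (σ t)) (fun _ => as (σ t)),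
      if_pos (Finset.mem_range.2 (h t (Nat.lt_succ_self t)))]

lemma ff_total (σ : Equiv.Perm ℕ) (t B : ℕ) (hB : ∀ x, B ≤ x → ff σ t x = 0) :
    ∑ x ∈ Finset.range B, (ff σ t x : ℝ) * cs x = ∑ i ∈ Finset.range t, as (σ i) := by
  obtain ⟨B', hB1, hB2⟩ : ∃ B', B ≤ B' ∧ ∀ i, i < t → pj (σ i) < B' := by
    refine ⟨max B ((Finset.range t).sup (fun i => pj (σ i)) + 1), le_max_left _ _, ?_⟩
    intro i hi
    have : pj (σ i) ≤ (Finset.range t).sup (fun i => pj (σ i)) :=
      Finset.le_sup (f := fun i => pj (σ i)) (Finset.mem_range.2 hi)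
    exact lt_of_lt_of_le (Nat.lt_succ_of_le this) (le_max_right _ _)
  rw [← ff_sum σ B' t hB2]
  apply Finset.sum_subset (Finset.range_mono hB1)
  intro x _ hx
  rw [Finset.mem_range, not_lt] at hx
  rw [hB x hx]
  simp

/-- Every sum of the series under a convergence preserving permutation is zero. -/
theorem sum_eq_zero (σ : Equiv.Perm ℕ)
    (hσ : ∀ b : ℕ → ℝ, (∃ M : ℝ, Tendsto (fun n => ∑ i ∈ Finset.range n, b i) atTop (𝓝 M)) →
      ∃ M : ℝ, Tendsto (fun n => ∑ i ∈ Finset.range n, b (σ i)) atTop (𝓝 M))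
    (L : ℝ) (hL : Tendsto (fun n => ∑ i ∈ Finset.range n, as (σ i)) atTop (𝓝 L)) : L = 0 := by
  obtain ⟨C, hC⟩ := bounded_jumps σ hσ
  refine limit_zero (ff_proc σ C hC) tileSys dl_tendsto start_tile
    (fun n => ∑ i ∈ Finset.range n, as (σ i)) (fun t B hB => ff_total σ t B hB) ?_ L hL
  intro b
  refine ⟨(Finset.range b).sup (fun x => σ.symm (ep x)) +
    (Finset.range b).sup (fun x => σ.symm (em x)) + 1, ?_⟩
  intro t ht x hx
  have h1 : σ.symm (ep x) ≤ (Finset.range b).sup (fun x => σ.symm (ep x)) :=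
    Finset.le_sup (f := fun x => σ.symm (ep x)) (Finset.mem_range.2 hx)
  have h2 : σ.symm (em x) ≤ (Finset.range b).sup (fun x => σ.symm (em x)) :=
    Finset.le_sup (f := fun x => σ.symm (em x)) (Finset.mem_range.2 hx)
  rw [ff_eq, if_pos (by omega), if_pos (by omega)]
  ring

end Pool.Agent.H57
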