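import Pool.Agent.H57.Dynamic

set_option autoImplicit false

namespace Pool.Agent.H57

open Finset

lemma find_tile {f : ℕ → ℕ → ℤ} {P : ℕ} (hf : Proc f P) {c : ℕ → ℝ} {δ : ℝ} {T : ℕ → ℕ → Prop}
    (hT : Tiles c δ T) (hδ : 0 < δ)
    (y : ℕ → ℕ) (hym : Monotone y) (N : ℕ) (hN : 40 * P + 40 ≤ N)
    (ε : ℤ) (hε : ε = 1 ∨ ε = -1)
    (hy : ∀ i, i < N → T (y i) (y (i+1)))
    (hinc : ∀ i, i < N → ∑ x ∈ Finset.Ico (y i) (y (i+1)), c x = ε * δ)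
    (a : ℕ) (ha : a ≤ y 0) (t0 t1 : ℕ) (ht : t0 ≤ t1)
    (hwin : ∀ s t, t0 ≤ s → s ≤ t1 → t0 ≤ t → t ≤ t1 → ∀ B, (∀ x, B ≤ x → f s x = 0 ∧ f t x = 0) →
      |∑ x ∈ Finset.range B, ((f s x - f t x : ℤ) : ℝ) * c x| ≤ δ)
    (hstat : ∀ x, x < a → ∀ t, t0 ≤ t → t ≤ t1 → f t x = f t0 x)
    (α β : ℤ) (hαβ : α ≠ β) (h0 : IsC (f t0) (y 0) (y N) α) (h1 : IsC (f t1) (y 0) (y N) β) :
    ∃ b b' t2 t3 α' β', T b b' ∧ y 0 ≤ b ∧ t0 ≤ t2 ∧ t2 ≤ t3 ∧ t3 ≤ t1 ∧ α' ≠ β' ∧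
      IsC (f t2) b b' α' ∧ IsC (f t3) b b' β' ∧
      ∀ t, t2 ≤ t → t ≤ t3 → Mixed (f t) b b' → 1 ≤ V a b (f t) ∧ Mixed (f t) (y 0) (y N) := by
  classical
  by_contra hcon
  have hcon' : ∀ b b' t2 t3 α' β', T b b' → y 0 ≤ b → t0 ≤ t2 → t2 ≤ t3 → t3 ≤ t1 → α' ≠ β' →
      IsC (f t2) b b' α' → IsC (f t3) b b' β' →
      ∃ t, t2 ≤ t ∧ t ≤ t3 ∧ Mixed (f t) b b' ∧ (1 ≤ V a b (f t) → ¬ Mixed (f t) (y 0) (y N)) := by
    intro b b' t2 t3 α' β' g1 g2 g3 g4 g5 g6 g7 g8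
    by_contra hno
    apply hcon
    refine ⟨b, b', t2, t3, α', β', g1, g2, g3, g4, g5, g6, g7, g8, ?_⟩
    intro t ht1 ht2 hm
    by_contra hno2
    apply hno
    refine ⟨t, ht1, ht2, hm, ?_⟩
    intro hV hM
    exact hno2 ⟨hV, hM⟩
  have hyN : y 0 < y N := lt_of_lt_of_le (hT.lt _ _ (hy 0 (by omega))) (hym (by omega))
  -- values
  have hval : ∀ t, t0 ≤ t → t ≤ t1 → ∀ x, y 0 ≤ x → x < y N → f t x = α ∨ f t x = β := by
    intro t ht0 ht1' x hx1 hx2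
    have hne : f t0 x ≠ f t1 x := by
      rw [h0 x hx1 hx2, h1 x hx1 hx2]; exact hαβ
    have := (hf.mono x t0 t t1 t1 ht0 ht1' le_rfl hne).1
    rwa [h0 x hx1 hx2, h1 x hx1 hx2] at this
  -- persistence of β
  have hpersβ : ∀ x, y 0 ≤ x → x < y N → ∀ s t, t0 ≤ s → s ≤ t1 → t0 ≤ t → t ≤ t1 → s ≤ t →
      f s x = β → f t x = β := by
    intro x hx1 hx2 s t hs0 hs1 ht0 ht1' hst hsx
    have hne : f t0 x ≠ f t1 x := by
      rw [h0 x hx1 hx2, h1 x hx1 hx2]; exact hαβ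
    have := (hf.mono x t0 s t t1 hs0 hst ht1' hne).2
    rw [h1 x hx1 hx2] at this
    exact this hsx
  have hpersα : ∀ x, y 0 ≤ x → x < y N → ∀ s t, t0 ≤ s → s ≤ t1 → t0 ≤ t → t ≤ t1 → t ≤ s →
      f s x = α → f t x = α := by
    intro x hx1 hx2 s t hs0 hs1 ht0 ht1' hst hsx
    rcases hval t ht0 ht1' x hx1 hx2 with h | h
    · exact h
    · exact absurd ((hpersβ x hx1 hx2 t s ht0 ht1' hs0 hs1 hst h).symm.trans hsx).symm hαβ
  -- choose the times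
  have hch : ∀ i, i < N → ∃ t, t0 ≤ t ∧ t ≤ t1 ∧ Mixed (f t) (y i) (y (i+1)) ∧
      V a (y i) (f t) = 0 := by
    intro i hi
    obtain ⟨t, g1, g2, g3, g4⟩ := hcon' (y i) (y (i+1)) t0 t1 α β (hy i hi) (hym (Nat.zero_le _))
      le_rfl ht le_rfl hαβ
      (fun x hx1 hx2 => h0 x ((hym (Nat.zero_le _)).trans hx1) (lt_of_lt_of_le hx2 (hym (by omega))))
      (fun x hx1 hx2 => h1 x ((hym (Nat.zero_le _)).trans hx1) (lt_of_lt_of_le hx2 (hym (by omega))))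
    refine ⟨t, g1, g2, g3, ?_⟩
    by_contra hV
    have hV1 : 1 ≤ V a (y i) (f t) := by
      have := V_nonneg a (y i) (f t)
      omega
    apply g4 hV1
    obtain ⟨x, x', e1, e2, e3, e4, e5⟩ := g3
    exact ⟨x, x', (hym (Nat.zero_le _)).trans e1, lt_of_lt_of_le e2 (hym (by omega)),
      (hym (Nat.zero_le _)).trans e3, lt_of_lt_of_le e4 (hym (by omega)), e5⟩
  choose! τ hτ1 hτ2 hτ3 hτ4 using hch
  set Jα := (Finset.range N).filter (fun i => f (τ i) (y 0) = α) with hJα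
  set Jβ := (Finset.range N).filter (fun i => f (τ i) (y 0) = β) with hJβ
  have hun : N ≤ Jα.card + Jβ.card := by
    have hsub : Finset.range N ⊆ Jα ∪ Jβ := by
      intro i hi
      rw [Finset.mem_union]
      have hiN := Finset.mem_range.1 hi
      rcases hval (τ i) (hτ1 i hiN) (hτ2 i hiN) (y 0) le_rfl hyN with h | h
      · left; exact Finset.mem_filter.2 ⟨hi, h⟩
      · right; exact Finset.mem_filter.2 ⟨hi, h⟩
    have := Finset.card_le_card hsub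
    rw [Finset.card_range] at this
    exact this.trans (Finset.card_union_le _ _)
  have hA : Jβ.card ≤ 19 * P + 8 := by
    refine half hf hT hδ y hym N ε hε hy hinc a ha t0 t1 hwin hstat β α (Ne.symm hαβ)
      (fun t g1 g2 x g3 g4 => (hval t g1 g2 x g3 g4).symm) (fun s t => s ≤ t) (fun s t => le_total s t)
      hpersβ τ (fun i hi => ⟨hτ1 i hi, hτ2 i hi⟩) hτ3 hτ4 ?_ Jβ
      (fun i hi => by
        rw [hJβ, Finset.mem_filter, Finset.mem_range] at hi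
        exact hi)
    intro s t hs0 hs1 ht0 ht1' hst b b' hTb hb α' β' hne hα' hβ'
    obtain ⟨u, g1, g2, g3, g4⟩ := hcon' b b' s t α' β' hTb hb hs0 hst ht1' hne hα' hβ'
    exact ⟨u, hs0.trans g1, g2.trans ht1', g1, g2, g3, g4⟩
  have hB : Jα.card ≤ 19 * P + 8 := by
    refine half hf hT hδ y hym N ε hε hy hinc a ha t0 t1 hwin hstat α β hαβ
      hval (fun s t => t ≤ s) (fun s t => le_total t s)
      hpersα τ (fun i hi => ⟨hτ1 i hi, hτ2 i hi⟩) hτ3 hτ4 ?_ Jα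
      (fun i hi => by
        rw [hJα, Finset.mem_filter, Finset.mem_range] at hi
        exact hi)
    intro s t hs0 hs1 ht0 ht1' hst b b' hTb hb α' β' hne hα' hβ'
    obtain ⟨u, g1, g2, g3, g4⟩ := hcon' b b' t s β' α' hTb hb ht0 hst hs1 (Ne.symm hne) hβ' hα'
    exact ⟨u, ht0.trans g1, g2.trans hs1, g2, g1, g3, g4⟩
  omega

end Pool.Agent.H57
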