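import Pool.Agent.H57.Claim

set_option autoImplicit false

namespace Pool.Agent.H57

open Finset Filter Topology

theorem limit_zero {f : ℕ → ℕ → ℤ} {P : ℕ} (hf : Proc f P) {c : ℕ → ℝ} {δ : ℕ → ℝ}
    {T : ℕ → ℕ → ℕ → ℕ → Prop} (hS : TileSys c δ T) (hδ : Tendsto δ atTop (𝓝 0))
    (hstart : ∀ κ D b0, ∃ b b', b0 ≤ b ∧ T κ D b b')
    (F : ℕ → ℝ)
    (hF : ∀ t B, (∀ x, B ≤ x → f t x = 0) → ∑ x ∈ Finset.range B, (f t x : ℝ) * c x = F t)
    (hfill : ∀ b, ∃ t0, ∀ t, t0 ≤ t → ∀ x, x < b → f t x = 0)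
    (L : ℝ) (hL : Tendsto F atTop (𝓝 L)) : L = 0 := by
  by_contra hL0
  have hLpos : 0 < |L| := abs_pos.2 hL0
  -- choose the level κ
  have h1 : ∀ᶠ κ in atTop, 3 * (P : ℝ) * δ κ < |L| / 2 := by
    have : Tendsto (fun κ => 3 * (P : ℝ) * δ κ) atTop (𝓝 (3 * (P : ℝ) * 0)) := hδ.const_mul _
    rw [mul_zero] at this
    exact this.eventually (gt_mem_nhds (by linarith))
  obtain ⟨κ, hκ1, hκ2⟩ := (h1.and (eventually_ge_atTop (40 * P + 40))).exists
  -- the window
  obtain ⟨w, hw0, hw⟩ : ∃ w : ℝ, 0 < w ∧ ∀ κ', κ' ≤ κ + 1 + (P + 1) → w ≤ δ κ' := by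
    have : ∀ n, ∃ w : ℝ, 0 < w ∧ ∀ κ', κ' ≤ n → w ≤ δ κ' := by
      intro n
      induction n with
      | zero => exact ⟨δ 0, hS.pos 0, fun κ' h => by rw [Nat.le_zero.1 h]⟩
      | succ n ih =>
        obtain ⟨w, hw0, hw⟩ := ih
        refine ⟨min w (δ (n+1)), lt_min hw0 (hS.pos _), ?_⟩
        intro κ' hκ'
        rcases Nat.lt_or_ge κ' (n+1) with h | h
        · exact (min_le_left _ _).trans (hw κ' (by omega))
        · have : κ' = n+1 := by omega
          rw [this]; exact min_le_right _ _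
    exact this _
  have h2 : ∀ᶠ t in atTop, |F t - L| < min (w/2) (|L|/2) := by
    have := Metric.tendsto_atTop.1 hL (min (w/2) (|L|/2)) (lt_min (by linarith) (by linarith))
    obtain ⟨n, hn⟩ := this
    exact eventually_atTop.2 ⟨n, fun t ht => by simpa [Real.dist_eq] using hn t ht⟩
  obtain ⟨tstar, htstar⟩ := eventually_atTop.1 h2
  obtain ⟨Bs, hBs⟩ := hf.supp tstar
  obtain ⟨bs, bs', hbs, hTbs⟩ := hstart κ (P+2) (max (2*P) Bs)
  obtain ⟨t0, ht0⟩ := hfill bs
  set t := max t0 tstar with ht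
  have htt : tstar ≤ t := le_max_right _ _
  have hft : ∀ x, x < bs → f t x = 0 := ht0 t (le_max_left _ _)
  have hwin : ∀ s t, tstar ≤ s → tstar ≤ t → ∀ B, (∀ x, B ≤ x → f s x = 0 ∧ f t x = 0) →
      ∀ κ', κ' ≤ κ + 1 + (P + 1) →
        |∑ x ∈ Finset.range B, ((f s x - f t x : ℤ) : ℝ) * c x| ≤ δ κ' := by
    intro s t hs ht B hB κ' hκ'
    have e1 := hF s B (fun x hx => (hB x hx).1)
    have e2 := hF t B (fun x hx => (hB x hx).2)
    have e3 : ∑ x ∈ Finset.range B, ((f s x - f t x : ℤ) : ℝ) * c x = F s - F t := by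
      rw [← e1, ← e2, ← Finset.sum_sub_distrib]
      apply Finset.sum_congr rfl
      intro x _
      push_cast
      ring
    rw [e3]
    have e4 := htstar s hs
    have e5 := htstar t ht
    have e6 : F s - F t = (F s - L) - (F t - L) := by ring
    rw [e6]
    refine (abs_sub _ _).trans ?_
    have e7 := hw κ' hκ'
    have e8 : |F s - L| < w/2 := lt_of_lt_of_le e4 (min_le_left _ _)
    have e9 : |F t - L| < w/2 := lt_of_lt_of_le e5 (min_le_left _ _)
    linarith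
  obtain ⟨Bt, hBt⟩ := hf.supp t
  obtain ⟨B, hB, hchain, _⟩ := chain_exists (hS.tiles κ (P+2)) hTbs Bt
  have hle := chain_le (hS.tiles κ (P+2)) hchain
  have hbsmax := hbs
  have hsum := chain_sum (hS.tiles κ (P+2)) (f t) (fun _ => 0) (hf.bd t) (by simp) bs
    (by
      intro b b' hb hTb α β hα hβ
      have hlt := (hS.tiles κ (P+2)).lt _ _ hTb
      have hα0 : α = 0 := (hα b le_rfl hlt).symm
      rw [hα0]
      by_contra hne
      refine no_crossing hf hS (max (2*P) Bs) tstar (le_max_left _ _) κ (by omega) hwin b b' hTb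
        (hbs.trans hb) tstar t le_rfl htt 0 β hne ?_ hβ
      intro x hx1 _
      exact hBs tstar le_rfl x (((le_max_right _ _).trans (hbs.trans hb)).trans hx1))
    hchain
  have hV : V bs B (f t) + V bs B (fun _ => 0) ≤ P := by
    have e1 : V bs B (f t) ≤ P := (V_mono _ (Nat.zero_le _) le_rfl).trans (hf.var t B)
    have e2 : V bs B (fun _ => (0 : ℤ)) = 0 := by simp [V]
    omega
  have hFt : F t = ∑ x ∈ Finset.Ico bs B, ((f t x - (0:ℤ) : ℤ) : ℝ) * c x := by
    rw [← hF t B (fun x hx => hBt t le_rfl x (hB.trans hx)), Finset.range_eq_Ico,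
      ← Finset.sum_Ico_consecutive _ (Nat.zero_le bs) hle]
    have e1 : ∑ x ∈ Finset.Ico 0 bs, (f t x : ℝ) * c x = 0 := by
      apply Finset.sum_eq_zero
      intro x hx
      rw [Finset.mem_Ico] at hx
      rw [hft x hx.2]
      simp
    rw [e1, zero_add]
    apply Finset.sum_congr rfl
    intro x _
    simp
  have hδκ := hS.pos κ
  have h3 : |F t| ≤ 3 * (P:ℝ) * δ κ := by
    rw [hFt]
    refine hsum.trans ?_
    have e1 : ((V bs B (f t) + V bs B (fun _ => 0) : ℤ) : ℝ) ≤ (P : ℝ) := by exact_mod_cast hV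
    calc 3 * δ κ * ((V bs B (f t) + V bs B (fun _ => 0) : ℤ) : ℝ) ≤ 3 * δ κ * (P:ℝ) :=
          mul_le_mul_of_nonneg_left e1 (by linarith)
      _ = _ := by ring
  have h4 : |F t - L| < |L|/2 := lt_of_lt_of_le (htstar t htt) (min_le_right _ _)
  have h5 : |L| ≤ |F t| + |F t - L| := by
    have : L = F t - (F t - L) := by ring
    calc |L| = |F t - (F t - L)| := by rw [← this]
      _ ≤ _ := abs_sub _ _
  linarith

end Pool.Agent.H57
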