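import Pool.Agent.H57.FindTile

set_option autoImplicit false

namespace Pool.Agent.H57

open Finset

lemma localize {f : ℕ → ℕ → ℤ} {P : ℕ} (hf : Proc f P) (b t2 t3 : ℕ) (ht : t2 ≤ t3) (q : ℕ)
    (hq : 2 * b * P < q) (y z : ℕ → ℕ) (hym : Monotone y) (hby : b ≤ y 0)
    (hyz : ∀ r, r < q → y r < z r) (hzy : ∀ r, r < q → z r ≤ y (r+1))
    (α β : ℤ) (hαβ : α ≠ β) (h2 : ∀ r, r < q → IsC (f t2) (y r) (z r) α)
    (h3 : ∀ r, r < q → IsC (f t3) (y r) (z r) β) :
    ∃ r, r < q ∧ ∃ t4 t5, t2 ≤ t4 ∧ t4 ≤ t5 ∧ t5 ≤ t3 ∧ IsC (f t4) (y r) (z r) α ∧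
      IsC (f t5) (y r) (z r) β ∧ ∀ x, x < b → ∀ t, t4 ≤ t → t ≤ t5 → f t x = f t4 x := by
  classical
  obtain ⟨Θ, hΘ1, hΘ2⟩ := hf.few b
  set Bad : Finset ℕ := Θ.biUnion (fun θ => (Finset.range q).filter
    (fun r => 1 ≤ V (y r) (y (r+1)) (f (θ+1)))) with hBad
  have hcardθ : ∀ θ, ((Finset.range q).filter
      (fun r => 1 ≤ V (y r) (y (r+1)) (f (θ+1)))).card ≤ P := by
    intro θ
    have h1 : ((((Finset.range q).filter
      (fun r => 1 ≤ V (y r) (y (r+1)) (f (θ+1)))).card : ℕ) : ℤ) ≤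
        ∑ r ∈ Finset.Ico 0 q, V (y r) (y (r+1)) (f (θ+1)) := by
      rw [Finset.card_eq_sum_ones]
      push_cast
      rw [Finset.sum_filter, ← Finset.range_eq_Ico]
      apply Finset.sum_le_sum
      intro r _
      split_ifs with h
      · exact h
      · exact V_nonneg _ _ _
    rw [sum_V_cells _ y hym 0 q (Nat.zero_le _)] at h1
    have h2 : V (y 0) (y q) (f (θ+1)) ≤ P :=
      (V_mono _ (Nat.zero_le _) le_rfl).trans (hf.var _ _)
    exact_mod_cast h1.trans h2
  have hBadcard : Bad.card ≤ 2 * b * P := by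
    refine (Finset.card_biUnion_le).trans ?_
    calc ∑ θ ∈ Θ, ((Finset.range q).filter
          (fun r => 1 ≤ V (y r) (y (r+1)) (f (θ+1)))).card ≤ ∑ θ ∈ Θ, P :=
          Finset.sum_le_sum (fun θ _ => hcardθ θ)
      _ = Θ.card * P := by rw [Finset.sum_const, smul_eq_mul]
      _ ≤ 2 * b * P := Nat.mul_le_mul_right _ hΘ1
  obtain ⟨r, hrq, hrBad⟩ : ∃ r ∈ Finset.range q, r ∉ Bad := by
    by_contra hno
    push Not at hno
    have h1 : Finset.range q ⊆ Bad := fun r hr => hno r hr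
    have := Finset.card_le_card h1
    rw [Finset.card_range] at this
    omega
  have hrq' := Finset.mem_range.1 hrq
  have hgood : ∀ θ ∈ Θ, V (y r) (y (r+1)) (f (θ+1)) = 0 := by
    intro θ hθ
    by_contra hne
    apply hrBad
    rw [hBad, Finset.mem_biUnion]
    refine ⟨θ, hθ, Finset.mem_filter.2 ⟨hrq, ?_⟩⟩
    have := V_nonneg (y r) (y (r+1)) (f (θ+1))
    omega
  refine ⟨r, hrq', ?_⟩
  have hyzr := hyz r hrq'
  have hzyr := hzy r hrq'
  have hbyr : b ≤ y r := hby.trans (hym (Nat.zero_le _))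
  have hex : ∃ t, t2 ≤ t ∧ IsC (f t) (y r) (z r) β := ⟨t3, ht, h3 r hrq'⟩
  set t5 := Nat.find hex with ht5
  have ht5spec := Nat.find_spec hex
  rw [← ht5] at ht5spec
  have ht53 : t5 ≤ t3 := Nat.find_min' hex ⟨ht, h3 r hrq'⟩
  set t4 := Nat.findGreatest (fun t => t2 ≤ t ∧ IsC (f t) (y r) (z r) α) t5 with ht4
  have ht4spec : t2 ≤ t4 ∧ IsC (f t4) (y r) (z r) α :=
    Nat.findGreatest_spec (P := fun t => t2 ≤ t ∧ IsC (f t) (y r) (z r) α) ht5spec.1
      ⟨le_rfl, h2 r hrq'⟩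
  have ht45 : t4 ≤ t5 := Nat.findGreatest_le t5
  refine ⟨t4, t5, ht4spec.1, ht45, ht53, ht4spec.2, ht5spec.2, ?_⟩
  have hval : ∀ t, t2 ≤ t → t ≤ t3 → f t (y r) = α ∨ f t (y r) = β := by
    intro t g1 g2
    have e2 := h2 r hrq' (y r) le_rfl hyzr
    have e3 := h3 r hrq' (y r) le_rfl hyzr
    have hne : f t2 (y r) ≠ f t3 (y r) := by rw [e2, e3]; exact hαβ
    have := (hf.mono (y r) t2 t t t3 g1 le_rfl g2 hne).1
    rwa [e2, e3] at this
  have hstep : ∀ t, t4 ≤ t → t < t5 → ∀ x, x < b → f (t+1) x = f t x := by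
    intro t g1 g2 x hx
    by_contra hne
    have htΘ : t ∈ Θ := hΘ2 t x hx (fun h => hne h.symm)
    have hconst := eq_of_V_eq_zero (hgood t htΘ)
    rcases hval (t+1) (by omega) (by omega) with h | h
    · -- value α: contradiction with maximality of t4
      have hC : IsC (f (t+1)) (y r) (z r) α := by
        intro w hw1 hw2
        rw [hconst w hw1 (by omega), h]
      have hle : t + 1 ≤ t4 :=
        Nat.le_findGreatest (P := fun t => t2 ≤ t ∧ IsC (f t) (y r) (z r) α) (by omega)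
          ⟨by omega, hC⟩
      omega
    · have hC : IsC (f (t+1)) (y r) (z r) β := by
        intro w hw1 hw2
        rw [hconst w hw1 (by omega), h]
      have hC' : IsC (f t) (y r) (z r) β := by
        intro w hw1 hw2
        by_contra hne2
        have h4 : f t w ≠ f (t+1) w := by
          rw [hC w hw1 hw2]; exact hne2
        have := hf.one t x w (fun h => hne h.symm) h4
        omega
      have : t5 ≤ t := Nat.find_min' hex ⟨by omega, hC'⟩
      omega
  intro x hx t g1 g2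
  induction t, g1 using Nat.le_induction with
  | base => rfl
  | succ n hn ih =>
    rw [hstep n hn (by omega) x hx]
    exact ih (by omega)

end Pool.Agent.H57
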