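import Pool.Agent.H36.QA.ResA

/-!
The lower bound of the conjectured order in Malle's conjecture for the groups `A₄ ≀ H` in their
imprimitive action on `4 m` points, `H ≤ S_m` transitive. The definitions used in the statement are
in `Pool/Agent/H38/ML/Spec.lean`. For `m = 1` the group is `A₄` in degree 4, and the bound holds over
every number field which contains a primitive cube root of unity.
-/

open H38.ML.Spec

theorem Pool.Agent.Results.MP_b39724_nt.A4Wreath.result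
    (m n : ℕ) (hm : 0 < m) (e : Fin m × Fin 4 ≃ Fin n)
    (H : Subgroup (Equiv.Perm (Fin m))) (hH : MulAction.IsPretransitive H (Fin m))
    (G : Subgroup (Equiv.Perm (Fin n)))
    (hG : ∀ g : Equiv.Perm (Fin n), g ∈ G ↔ ∃ h ∈ H, ∃ ε : Fin m → Equiv.Perm (Fin 4),
      (∀ i, Equiv.Perm.sign (ε i) = 1) ∧ ∀ i k, g (e (i, k)) = e (h i, ε i k)) :
    indG G = 2 ∧
    (∀ K : IntermediateField ℚ (AlgebraicClosure ℚ), ∀ _ : NumberField K,
      (∃ ζ : K, IsPrimitiveRoot ζ 3) → (m = 1 ∨ IsGaloisGroup K (AlgebraicClosure ℚ) H) →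
        ∃ c : ℝ, 0 < c ∧ ∃ B₀ : ℝ, ∀ B : ℝ, B₀ ≤ B →
          ((⌈c * B ^ (1 / (indG G : ℝ)) *
              Real.log B ^ (betaAll K (AlgebraicClosure ℚ) G - 1)⌉₊ : ℕ) : ℕ∞) ≤
            nK K (AlgebraicClosure ℚ) G B) ∧
    ∃ K₀ : IntermediateField ℚ (AlgebraicClosure ℚ), NumberField K₀ ∧
      ∀ K : IntermediateField ℚ (AlgebraicClosure ℚ), K₀ ≤ K → ∀ _ : NumberField K,
        ∃ c : ℝ, 0 < c ∧ ∃ B₀ : ℝ, ∀ B : ℝ, B₀ ≤ B →
          ((⌈c * B ^ (1 / (indG G : ℝ)) *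
              Real.log B ^ (betaAll K (AlgebraicClosure ℚ) G - 1)⌉₊ : ℕ) : ℕ∞) ≤
            nK K (AlgebraicClosure ℚ) G B := by
  have hn : 2 ≤ n := by
    have h1 : Fintype.card (Fin m × Fin 4) = Fintype.card (Fin n) := Fintype.card_congr e
    simp only [Fintype.card_prod, Fintype.card_fin] at h1
    omega
  have main : ∀ K : IntermediateField ℚ (AlgebraicClosure ℚ), ∀ _ : NumberField K,
      (∃ ζ : K, IsPrimitiveRoot ζ 3) → IsGaloisGroup K (AlgebraicClosure ℚ) H →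
        ∃ c : ℝ, 0 < c ∧ ∃ B₀ : ℝ, ∀ B : ℝ, B₀ ≤ B →
          ((⌈c * B ^ (1 / (indG G : ℝ)) *
              Real.log B ^ (betaAll K (AlgebraicClosure ℚ) G - 1)⌉₊ : ℕ) : ℕ∞) ≤
            nK K (AlgebraicClosure ℚ) G B := by
    intro K hK ⟨ζ, hζ⟩ ⟨ρ₀, hρ₀, hft⟩
    haveI : FiniteDimensional ℚ K := hK.to_finiteDimensional
    obtain ⟨c, hc, B₀, hB⟩ := H36.QA.a4_bound hm e H hH G hG K ζ hζ ρ₀ hρ₀ hft
    exact ⟨c, hc, B₀, fun B hBB => (hB B hBB).trans (H38.ML.nK_le_spec hn G K B)⟩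
  refine ⟨H36.QA.wr_indG e H G hm hG, fun K hK hζ h => main K hK hζ ?_, ?_⟩
  · rcases h with rfl | h
    · haveI : Subsingleton H := inferInstance
      exact ⟨1, fun h => ⟨1, Subsingleton.elim _ _⟩, ⊥, inferInstance, fun _ _ => by
        simp [MonoidHom.mem_ker]⟩
    · exact h
  · obtain ⟨K₁, hK₁, h₁⟩ := H36.RT.realizable_all H
    obtain ⟨K₂, hK₂, h₂⟩ := H38.ML.base_field 3 0 (by norm_num)
    haveI := hK₁.to_finiteDimensional
    haveI := hK₂
    refine ⟨K₁ ⊔ K₂, ?_, fun K hK hKf => ?_⟩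
    · haveI := IntermediateField.finiteDimensional_sup K₁ K₂
      exact NumberField.of_module_finite ℚ _
    · exact main K hKf (h₂ K hKf (le_trans le_sup_right hK)).1 (h₁ K (le_trans le_sup_left hK) hKf)
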