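import Pool.Agent.H49.IRE.Main

/-!
# Irrational nef classes of small numerical dimension: Q1, finiteness and automorphisms are equivalent

`D : NefData N` is `N^1(Y)` with its lattice, the ample cone, the cone of effective classes and the image of `Aut(Y)`,
`I` is the top intersection form, `d = dim Y`. `W` is a rational plane which meets the ample cone (so it is spanned by
an ample integral class `h` and an integral class `u`). No finiteness theorem is assumed.
-/

set_option autoImplicit false

namespace Pool.Agent.Results.MP_e49dc9_ag.IrrationalRays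

open Pool.Agent.H57.KM Pool.Agent.H57.IR

/-- Let the plane `W` contain an irrational nef class `p` of numerical dimension at most `d / 2`. Then `d = 2 m`, the
form is `c (a b)^m` in the coordinates given by `p` and a second class `p'`, and the following are equivalent: the
cone conjecture for the slice of the effective nef cone by `W`; the ample integral classes of `W` of bounded degree lie
in finitely many orbits of the group; the same with the orbits of the stabiliser of `W`; there is an automorphism with
the eigenvectors `p` and `p'` and eigenvalues `μ > 1` and `1 / μ`; the orbit of `h` under the stabiliser of `W` is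
infinite. If they hold, the nef cone of `W` is spanned by `p` and `p'` and its effective part consists of `0` and the
interior. Q1 implies the finiteness of the orbits of ample integral classes of bounded degree, and this implies the
conditions above; if the Picard number is two, Q1 is equivalent to this finiteness and to the infinity of the group. -/
theorem result {N d m : ℕ} (D : NefData N) (I : MultilinearMap ℝ (fun _ : Fin d => V N) ℝ)
    (hI : Pool.Agent.H49.IRE.TopForm D I) (hd : 0 < d) (hm : 2 * m ≤ d) (h u : Fin N → ℤ) (hh : toR h ∈ D.amp)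
    (p : V N) (hp : p ∈ closure D.amp) (hpW : p ∈ Submodule.span ℝ {toR h, toR u})
    (hirr : ∀ (q : Fin N → ℚ) (t : ℝ), p ≠ t • qR q) (hnd : NumDimLe I p m) :
    d = 2 * m ∧ ∃ (p' : V N) (c : ℝ), p' ∈ Submodule.span ℝ {toR h, toR u} ∧ 0 < c ∧
      (∀ x ∈ Submodule.span ℝ {toR h, toR u}, ∃ a b : ℝ, x = a • p + b • p') ∧
      (∀ a b : ℝ, I (fun _ => a • p + b • p') = c * (a * b) ^ m) ∧
      (∀ a b : ℝ, a • p + b • p' ∈ D.amp → 0 < a ∧ 0 < b) ∧
      [SliceQ1 D (Submodule.span ℝ {toR h, toR u}),
        Pool.Agent.H49.IRE.FinOrb D I (Submodule.span ℝ {toR h, toR u}),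
        Pool.Agent.H49.IRE.FinStab D I (Submodule.span ℝ {toR h, toR u}),
        ∃ g ∈ D.G, ∃ μ : ℝ, 1 < μ ∧ act g p = μ • p ∧ act g p' = μ⁻¹ • p',
        {x | ∃ g ∈ stab D.G (Submodule.span ℝ {toR h, toR u}), x = act g (toR h)}.Infinite].TFAE ∧
      (SliceQ1 D (Submodule.span ℝ {toR h, toR u}) →
        (∀ a b : ℝ, a • p + b • p' ∈ closure D.amp ↔ 0 ≤ a ∧ 0 ≤ b) ∧
        ∀ a b : ℝ, a • p + b • p' ∈ closure D.amp ∩ D.eff ↔ (0 < a ∧ 0 < b) ∨ (a = 0 ∧ b = 0)) ∧
      (D.Q1 → Pool.Agent.H49.IRE.FinOrb D I ⊤) ∧
      (Pool.Agent.H49.IRE.FinOrb D I ⊤ → SliceQ1 D (Submodule.span ℝ {toR h, toR u})) ∧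
      (N = 2 → [D.Q1, Pool.Agent.H49.IRE.FinOrb D I ⊤, Infinite D.G].TFAE) :=
  Pool.Agent.H49.IRE.main D I hI hd hm h u hh p hp hpW hirr hnd

end Pool.Agent.Results.MP_e49dc9_ag.IrrationalRays
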