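import Pool.Agent.H57.MP.Fin

/-!
Malle's conjecture (question Q1): the order of growth for nilpotent transitive groups whose elements
of least index generate a Sylow subgroup of nilpotency class at most three. The definitions used in
the statement are in `Pool/Agent/H38/ML/Spec.lean`.
-/

open H38.ML.Spec

theorem Pool.Agent.Results.MP_b39724_nt.SylowClassThree.result
    (n : ℕ) (hn : 2 ≤ n) (G : Subgroup (Equiv.Perm (Fin n)))
    (hG : MulAction.IsPretransitive G (Fin n)) (hnil : Group.IsNilpotent G) (p : ℕ)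
    (hp : p.Prime) (S : Sylow p G)
    (hS : Subgroup.closure {h : G | h ≠ 1 ∧ ind (h : Equiv.Perm (Fin n)) = indG G} =
      (S : Subgroup G))
    (h4 : ⁅⁅⁅(S : Subgroup G), (S : Subgroup G)⁆, (S : Subgroup G)⁆, (S : Subgroup G)⁆ = ⊥) :
    ∃ K₀ : IntermediateField ℚ (AlgebraicClosure ℚ), NumberField K₀ ∧
      ∀ K : IntermediateField ℚ (AlgebraicClosure ℚ), K₀ ≤ K → ∀ _ : NumberField K,
        (p ≠ 2 → ∃ c : ℝ, 0 < c ∧ ∃ B₀ : ℝ, ∀ B : ℝ, B₀ ≤ B →
          ((⌈c * B ^ (1 / (indG G : ℝ)) *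
              Real.log B ^ (betaAll K (AlgebraicClosure ℚ) G - 1)⌉₊ : ℕ) : ℕ∞) ≤
            nK K (AlgebraicClosure ℚ) G B) ∧
        (∃ C : ℝ, 0 < C ∧ ∃ B₀ : ℝ, ∀ B : ℝ, B₀ ≤ B →
          nK K (AlgebraicClosure ℚ) G B ≤
            ((⌊C * B ^ (1 / (indG G : ℝ)) *
              Real.log B ^ (betaAll K (AlgebraicClosure ℚ) G - 1)⌋₊ : ℕ) : ℕ∞)) :=
  H57.MP.fin3 n hn G hG hnil p hp S hS h4
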