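import Pool.Agent.H57.Sys

set_option autoImplicit false

namespace Pool.Agent.H57

open Finset Filter Topology

lemma Bs_lt (i : ℕ) : Bs i < Bs (i+1) := Bs_strictMono (Nat.lt_succ_self i)

/-- Position of `c x` in the series. -/
def ep (x : ℕ) : ℕ := x + Bs (st x)

/-- Position of `-c x` in the series. -/
def em (x : ℕ) : ℕ := x + Bs (st x + 1)

lemma st_mono : Monotone st := by
  intro x y hxy
  by_contra hcon
  push Not at hcon
  have h1 := (st_spec y).2
  have h2 := (st_spec x).1
  have h3 : Bs (st y + 1) ≤ Bs (st x) := Bs_strictMono.monotone hcon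
  omega

lemma ep_strictMono : StrictMono ep := by
  intro x y hxy
  have h1 : Bs (st x) ≤ Bs (st y) := Bs_strictMono.monotone (st_mono hxy.le)
  unfold ep
  omega

lemma em_strictMono : StrictMono em := by
  intro x y hxy
  have h1 : Bs (st x + 1) ≤ Bs (st y + 1) :=
    Bs_strictMono.monotone (Nat.add_le_add_right (st_mono hxy.le) 1)
  unfold em
  omega

lemma Bs2_strictMono : StrictMono (fun i => 2 * Bs i) := by
  intro i j hij
  have := Bs_strictMono hij
  show 2 * Bs i < 2 * Bs j
  omega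

/-- Stage of a position of the series. -/
def s2 (n : ℕ) : ℕ := idx (fun i => 2 * Bs i) n

lemma s2_spec (n : ℕ) : 2 * Bs (s2 n) ≤ n ∧ n < 2 * Bs (s2 n + 1) :=
  idx_spec Bs2_strictMono (by simp [Bs])

lemma s2_eq {i n : ℕ} (h1 : 2 * Bs i ≤ n) (h2 : n < 2 * Bs (i+1)) : s2 n = i :=
  idx_eq Bs2_strictMono h1 h2

/-- The index of the `c`-term at position `n`. -/
def pj (n : ℕ) : ℕ := if n < Bs (s2 n) + Bs (s2 n + 1) then n - Bs (s2 n) else n - Bs (s2 n + 1)

/-- The series `u_0, -u_0, u_1, -u_1, ...`. -/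
noncomputable def as (n : ℕ) : ℝ := if n < Bs (s2 n) + Bs (s2 n + 1) then cs (n - Bs (s2 n))
  else - cs (n - Bs (s2 n + 1))

lemma s2_ep (x : ℕ) : s2 (ep x) = st x := by
  obtain ⟨h1, h2⟩ := st_spec x
  apply s2_eq <;> unfold ep
  · omega
  · have := Bs_lt (st x)
    omega

lemma s2_em (x : ℕ) : s2 (em x) = st x := by
  obtain ⟨h1, h2⟩ := st_spec x
  have := Bs_lt (st x)
  apply s2_eq <;> unfold em <;> omega

lemma ep_lt (x : ℕ) : ep x < Bs (st x) + Bs (st x + 1) := by
  obtain ⟨h1, h2⟩ := st_spec x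
  unfold ep
  omega

lemma em_ge (x : ℕ) : Bs (st x) + Bs (st x + 1) ≤ em x := by
  obtain ⟨h1, h2⟩ := st_spec x
  unfold em
  omega

lemma as_ep (x : ℕ) : as (ep x) = cs x := by
  unfold as
  rw [s2_ep, if_pos (ep_lt x)]
  congr 1
  unfold ep
  omega

lemma as_em (x : ℕ) : as (em x) = - cs x := by
  unfold as
  rw [s2_em, if_neg (not_lt.2 (em_ge x))]
  congr 2
  unfold em
  omega

lemma pj_ep (x : ℕ) : pj (ep x) = x := by
  unfold pj
  rw [s2_ep, if_pos (ep_lt x)]
  unfold ep
  omega

lemma pj_em (x : ℕ) : pj (em x) = x := by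
  unfold pj
  rw [s2_em, if_neg (not_lt.2 (em_ge x))]
  unfold em
  omega

lemma ep_ne_em (x y : ℕ) : ep x ≠ em y := by
  intro h
  have h1 : x = y := by rw [← pj_ep x, h, pj_em]
  subst h1
  have h2 := ep_lt x
  have h3 := em_ge x
  omega

lemma cover (n : ℕ) : n = ep (pj n) ∨ n = em (pj n) := by
  obtain ⟨h1, h2⟩ := s2_spec n
  have hlt := Bs_lt (s2 n)
  by_cases h : n < Bs (s2 n) + Bs (s2 n + 1)
  · left
    have hp : pj n = n - Bs (s2 n) := by unfold pj; rw [if_pos h]
    have hs : st (pj n) = s2 n := by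
      rw [hp]; apply st_eq <;> omega
    unfold ep
    rw [hs, hp]
    omega
  · right
    have hp : pj n = n - Bs (s2 n + 1) := by unfold pj; rw [if_neg h]
    have hs : st (pj n) = s2 n := by
      rw [hp]; apply st_eq <;> omega
    unfold em
    rw [hs, hp]
    omega

/-- The interleaving permutation, as a function. -/
def s0 (n : ℕ) : ℕ := if n % 2 = 0 then ep (n / 2) else em (n / 2)

lemma s0_even (x : ℕ) : s0 (2 * x) = ep x := by
  unfold s0
  have h1 : 2 * x % 2 = 0 := by omega
  have h2 : 2 * x / 2 = x := by omega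
  rw [if_pos h1, h2]

lemma s0_odd (x : ℕ) : s0 (2 * x + 1) = em x := by
  unfold s0
  have h1 : ¬ (2 * x + 1) % 2 = 0 := by omega
  have h2 : (2 * x + 1) / 2 = x := by omega
  rw [if_neg h1, h2]

lemma even_or_odd' (n : ℕ) : (∃ x, n = 2 * x) ∨ (∃ x, n = 2 * x + 1) := by
  rcases Nat.even_or_odd' n with ⟨k, h | h⟩
  · exact Or.inl ⟨k, h⟩
  · exact Or.inr ⟨k, h⟩

lemma s0_bij : Function.Bijective s0 := by
  constructor
  · intro m n h
    rcases even_or_odd' m with ⟨x, rfl⟩ | ⟨x, rfl⟩ <;> rcases even_or_odd' n with ⟨y, rfl⟩ | ⟨y, rfl⟩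
    · rw [s0_even, s0_even] at h
      rw [ep_strictMono.injective h]
    · rw [s0_even, s0_odd] at h
      exact absurd h (ep_ne_em x y)
    · rw [s0_odd, s0_even] at h
      exact absurd h.symm (ep_ne_em y x)
    · rw [s0_odd, s0_odd] at h
      rw [em_strictMono.injective h]
  · intro n
    rcases cover n with h | h
    · exact ⟨2 * pj n, by rw [s0_even, ← h]⟩
    · exact ⟨2 * pj n + 1, by rw [s0_odd, ← h]⟩

/-- The interleaving permutation. -/
noncomputable def sig0 : Equiv.Perm ℕ := Equiv.ofBijective s0 s0_bij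

lemma sig0_apply (n : ℕ) : sig0 n = s0 n := rfl

/-- Partial sums along the interleaving. -/
lemma sum_s0 (b : ℕ → ℝ) (x : ℕ) :
    ∑ i ∈ Finset.range (2 * x), b (s0 i) =
      ∑ i ∈ Finset.range (x + Bs (st x)), b i + ∑ i ∈ Finset.range (x + Bs (st x + 1)), b i -
        ∑ i ∈ Finset.range (Bs (st x) + Bs (st x + 1)), b i := by
  induction x with
  | zero =>
    have h : st 0 = 0 := st_eq (by simp [Bs]) (by
      have := Bs_lt 0
      simpa [Bs] using this)
    rw [h]
    simp [Bs]
  | succ x ih =>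
    have e1 : 2 * (x + 1) = 2 * x + 1 + 1 := by ring
    rw [e1, Finset.sum_range_succ, Finset.sum_range_succ, ih, s0_even, s0_odd]
    obtain ⟨h1, h2⟩ := st_spec x
    have hA : ∑ i ∈ Finset.range (x + 1 + Bs (st x)), b i =
        ∑ i ∈ Finset.range (x + Bs (st x)), b i + b (ep x) := by
      have : x + 1 + Bs (st x) = (x + Bs (st x)) + 1 := by ring
      rw [this, Finset.sum_range_succ]
      rfl
    have hB : ∑ i ∈ Finset.range (x + 1 + Bs (st x + 1)), b i =
        ∑ i ∈ Finset.range (x + Bs (st x + 1)), b i + b (em x) := by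
      have : x + 1 + Bs (st x + 1) = (x + Bs (st x + 1)) + 1 := by ring
      rw [this, Finset.sum_range_succ]
      rfl
    rcases Nat.lt_or_ge (x+1) (Bs (st x + 1)) with h3 | h3
    · have hst : st (x+1) = st x := st_eq (by omega) h3
      rw [hst, hA, hB]
      ring
    · have h4 : x + 1 = Bs (st x + 1) := by omega
      have hst : st (x+1) = st x + 1 := by
        apply st_eq
        · omega
        · have := Bs_lt (st x + 1)
          omega
      rw [hst]
      have e2 : ∑ i ∈ Finset.range (x + 1 + Bs (st x + 1 + 1)), b i =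
          ∑ i ∈ Finset.range (Bs (st x + 1) + Bs (st x + 1 + 1)), b i := by rw [h4]
      have e3 : ∑ i ∈ Finset.range (x + 1 + Bs (st x)), b i =
          ∑ i ∈ Finset.range (Bs (st x) + Bs (st x + 1)), b i := by rw [h4, add_comm]
      rw [e2]
      linarith

lemma s0_preserves (b : ℕ → ℝ) (M : ℝ)
    (hb : Tendsto (fun n => ∑ i ∈ Finset.range n, b i) atTop (𝓝 M)) :
    Tendsto (fun n => ∑ i ∈ Finset.range n, b (s0 i)) atTop (𝓝 M) := by
  -- terms tend to zero
  have hb0 : Tendsto b atTop (𝓝 0) := by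
    have h1 : Tendsto (fun n => ∑ i ∈ Finset.range (n+1), b i) atTop (𝓝 M) :=
      hb.comp (tendsto_add_atTop_nat 1)
    have h2 := h1.sub hb
    rw [sub_self] at h2
    refine h2.congr ?_
    intro n
    rw [Finset.sum_range_succ]
    ring
  have hhalf : Tendsto (fun n : ℕ => n / 2) atTop atTop := by
    rw [tendsto_atTop]
    intro k
    rw [eventually_atTop]
    exact ⟨2 * k, fun n hn => by omega⟩
  have hx : Tendsto (fun n : ℕ => n / 2 + Bs (st (n/2))) atTop atTop :=
    tendsto_atTop_mono (fun n => Nat.le_add_right _ _) hhalf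
  have hy : Tendsto (fun n : ℕ => n / 2 + Bs (st (n/2) + 1)) atTop atTop :=
    tendsto_atTop_mono (fun n => Nat.le_add_right _ _) hhalf
  have hz : Tendsto (fun n : ℕ => Bs (st (n/2)) + Bs (st (n/2) + 1)) atTop atTop :=
    tendsto_atTop_mono (fun n => by
      have := (st_spec (n/2)).2
      show n / 2 ≤ Bs (st (n/2)) + Bs (st (n/2) + 1)
      omega) hhalf
  have hmain : Tendsto (fun n => ∑ i ∈ Finset.range (2 * (n/2)), b (s0 i)) atTop (𝓝 M) := by
    have h1 := ((hb.comp hx).add (hb.comp hy)).sub (hb.comp hz)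
    rw [add_sub_cancel_right] at h1
    refine h1.congr ?_
    intro n
    simp only [Function.comp]
    rw [sum_s0]
  have hrest : Tendsto (fun n : ℕ => if n % 2 = 0 then (0:ℝ) else b (ep (n/2))) atTop (𝓝 0) := by
    have h1 : Tendsto (fun n : ℕ => b (ep (n/2))) atTop (𝓝 0) := by
      apply hb0.comp
      exact hx
    refine squeeze_zero_norm (a := fun n => ‖b (ep (n/2))‖) ?_ ?_
    · intro n
      split_ifs
      · simp
      · exact le_rfl
    · simpa using h1.norm
  have := hmain.add hrest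
  rw [add_zero] at this
  refine this.congr ?_
  intro n
  rcases even_or_odd' n with ⟨x, rfl⟩ | ⟨x, rfl⟩
  · have h1 : 2 * x / 2 = x := by omega
    have h2 : 2 * x % 2 = 0 := by omega
    rw [h1, if_pos h2, add_zero]
  · have h1 : (2 * x + 1) / 2 = x := by omega
    have h2 : ¬ (2 * x + 1) % 2 = 0 := by omega
    rw [h1, if_neg h2, Finset.sum_range_succ, s0_even]

lemma s0_sum_even (x : ℕ) : ∑ i ∈ Finset.range (2 * x), as (s0 i) = 0 := by
  induction x with
  | zero => simp
  | succ x ih =>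
    have e1 : 2 * (x + 1) = 2 * x + 1 + 1 := by ring
    rw [e1, Finset.sum_range_succ, Finset.sum_range_succ, ih, s0_even, s0_odd, as_ep, as_em]
    ring

lemma s0_converges : Tendsto (fun n => ∑ i ∈ Finset.range n, as (s0 i)) atTop (𝓝 0) := by
  have hhalf : Tendsto (fun n : ℕ => n / 2) atTop atTop := by
    rw [tendsto_atTop]
    intro k
    rw [eventually_atTop]
    exact ⟨2 * k, fun n hn => by omega⟩
  have h1 : Tendsto (fun n : ℕ => cs (n/2)) atTop (𝓝 0) := cs_tendsto.comp hhalf
  refine squeeze_zero_norm (a := fun n => ‖cs (n/2)‖) ?_ (by simpa using h1.norm)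
  intro n
  rcases even_or_odd' n with ⟨x, rfl⟩ | ⟨x, rfl⟩
  · rw [s0_sum_even]; simp
  · have h1 : (2 * x + 1) / 2 = x := by omega
    rw [Finset.sum_range_succ, s0_sum_even, s0_even, as_ep, h1, zero_add]

/-- The block sums. -/
lemma sum_up (i : ℕ) : ∑ n ∈ Finset.Ico (2 * Bs i) (Bs i + Bs (i+1)), as n = 1 := by
  rw [← stage_total i]
  have hlt := Bs_lt i
  have e1 : Finset.Ico (2 * Bs i) (Bs i + Bs (i+1)) =
      (Finset.Ico (Bs i) (Bs (i+1))).image (fun x => x + Bs i) := by
    ext n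
    simp only [Finset.mem_Ico, Finset.mem_image]
    constructor
    · rintro ⟨h1, h2⟩
      exact ⟨n - Bs i, by omega, by omega⟩
    · rintro ⟨x, h1, rfl⟩
      omega
  rw [e1, Finset.sum_image (by intro x _ y _ h; simpa using h)]
  apply Finset.sum_congr rfl
  intro x hx
  rw [Finset.mem_Ico] at hx
  have hs : st x = i := st_eq hx.1 hx.2
  have : x + Bs i = ep x := by unfold ep; rw [hs]
  rw [this, as_ep]

lemma sum_down (i : ℕ) : ∑ n ∈ Finset.Ico (Bs i + Bs (i+1)) (2 * Bs (i+1)), as n = -1 := by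
  rw [← stage_total i]
  have hlt := Bs_lt i
  have e1 : Finset.Ico (Bs i + Bs (i+1)) (2 * Bs (i+1)) =
      (Finset.Ico (Bs i) (Bs (i+1))).image (fun x => x + Bs (i+1)) := by
    ext n
    simp only [Finset.mem_Ico, Finset.mem_image]
    constructor
    · rintro ⟨h1, h2⟩
      exact ⟨n - Bs (i+1), by omega, by omega⟩
    · rintro ⟨x, h1, rfl⟩
      omega
  rw [e1, Finset.sum_image (by intro x _ y _ h; simpa using h), ← Finset.sum_neg_distrib]
  apply Finset.sum_congr rfl
  intro x hx
  rw [Finset.mem_Ico] at hx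
  have hs : st x = i := st_eq hx.1 hx.2
  have : x + Bs (i+1) = em x := by unfold em; rw [hs]
  rw [this, as_em]

lemma sum_full (i : ℕ) : ∑ n ∈ Finset.range (2 * Bs i), as n = 0 := by
  induction i with
  | zero => simp [Bs]
  | succ i ih =>
    have hlt := Bs_lt i
    rw [Finset.range_eq_Ico] at ih ⊢
    rw [← Finset.sum_Ico_consecutive _ (Nat.zero_le (2 * Bs i)) (by omega : 2 * Bs i ≤ 2 * Bs (i+1)),
      ih, ← Finset.sum_Ico_consecutive _ (by omega : 2 * Bs i ≤ Bs i + Bs (i+1))
        (by omega : Bs i + Bs (i+1) ≤ 2 * Bs (i+1)), sum_up, sum_down]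
    ring

lemma sum_half (i : ℕ) : ∑ n ∈ Finset.range (Bs i + Bs (i+1)), as n = 1 := by
  have hlt := Bs_lt i
  rw [Finset.range_eq_Ico, ← Finset.sum_Ico_consecutive _ (Nat.zero_le (2 * Bs i))
    (by omega : 2 * Bs i ≤ Bs i + Bs (i+1)), sum_up, ← Finset.range_eq_Ico, sum_full]
  ring

lemma as_diverges : ¬ ∃ L : ℝ, Tendsto (fun n => ∑ i ∈ Finset.range n, as i) atTop (𝓝 L) := by
  rintro ⟨L, hL⟩
  have hB : Tendsto Bs atTop atTop := Bs_strictMono.tendsto_atTop
  have h1 : Tendsto (fun i => 2 * Bs i) atTop atTop := Bs2_strictMono.tendsto_atTop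
  have h2 : Tendsto (fun i => Bs i + Bs (i+1)) atTop atTop :=
    tendsto_atTop_mono (fun i => Nat.le_add_right _ _) hB
  have e1 := hL.comp h1
  have e2 := hL.comp h2
  have e3 : Tendsto (fun _ : ℕ => (0:ℝ)) atTop (𝓝 L) := e1.congr (fun i => by
    simp only [Function.comp]; exact sum_full i)
  have e4 : Tendsto (fun _ : ℕ => (1:ℝ)) atTop (𝓝 L) := e2.congr (fun i => by
    simp only [Function.comp]; exact sum_half i)
  have e5 := tendsto_nhds_unique e3 tendsto_const_nhds
  have e6 := tendsto_nhds_unique e4 tendsto_const_nhds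
  linarith

end Pool.Agent.H57
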