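import Pool.Agent.H57.Var

set_option autoImplicit false

namespace Pool.Agent.H57

open Finset

/-- `f` takes two different values on `[b, b')`. -/
def Mixed (f : ℕ → ℤ) (b b' : ℕ) : Prop :=
  ∃ x x', b ≤ x ∧ x < b' ∧ b ≤ x' ∧ x' < b' ∧ f x ≠ f x'

/-- `f` is constant equal to `γ` on `[b, b')`. -/
def IsC (f : ℕ → ℤ) (b b' : ℕ) (γ : ℤ) : Prop := ∀ x, b ≤ x → x < b' → f x = γ

/-- Tiles `[b, b')` of one level for the sequence `c`. -/
structure Tiles (c : ℕ → ℝ) (δ : ℝ) (T : ℕ → ℕ → Prop) : Prop where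
  lt : ∀ b b', T b b' → b < b'
  amp : ∀ b b', T b b' → ∀ x, b ≤ x → x ≤ b' → |∑ y ∈ Finset.Ico b x, c y| ≤ δ
  succ : ∀ b b', T b b' → ∃ b'', T b' b''

lemma chain_le {c : ℕ → ℝ} {δ : ℝ} {T : ℕ → ℕ → Prop} (hT : Tiles c δ T) {b b' : ℕ}
    (h : Relation.ReflTransGen T b b') : b ≤ b' := by
  induction h with
  | refl => exact le_rfl
  | tail _ h2 ih => exact ih.trans (hT.lt _ _ h2).le

lemma chain_exists {c : ℕ → ℝ} {δ : ℝ} {T : ℕ → ℕ → Prop} (hT : Tiles c δ T) {b b1 : ℕ}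
    (h : T b b1) (B : ℕ) : ∃ b', B ≤ b' ∧ Relation.ReflTransGen T b b' ∧ ∃ b'', T b' b'' := by
  induction B with
  | zero => exact ⟨b, Nat.zero_le _, Relation.ReflTransGen.refl, b1, h⟩
  | succ n ih =>
    obtain ⟨b', hb', hc, b'', hb''⟩ := ih
    obtain ⟨b3, h3⟩ := hT.succ _ _ hb''
    refine ⟨b'', ?_, hc.tail hb'', b3, h3⟩
    have := hT.lt _ _ hb''
    omega

/-- No tile in the chain is crossed between `h` and `g`: the difference has small sum. -/
lemma chain_sum {c : ℕ → ℝ} {δ : ℝ} {T : ℕ → ℕ → Prop} (hT : Tiles c δ T) (g h : ℕ → ℤ)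
    (hg : ∀ x, |g x| ≤ 1) (hh : ∀ x, |h x| ≤ 1) (b0 : ℕ)
    (hnc : ∀ b b', b0 ≤ b → T b b' → ∀ α β, IsC h b b' α → IsC g b b' β → α = β) {b : ℕ}
    (hc : Relation.ReflTransGen T b0 b) :
    |∑ x ∈ Finset.Ico b0 b, ((g x - h x : ℤ) : ℝ) * c x| ≤
      3 * δ * ((V b0 b g + V b0 b h : ℤ) : ℝ) := by
  induction hc with
  | refl => simp [V]
  | @tail b1 b2 h1 h2 ih =>
    have hb01 : b0 ≤ b1 := chain_le hT h1
    have hb12 : b1 < b2 := hT.lt _ _ h2
    have hδ : 0 ≤ δ := by
      have := hT.amp _ _ h2 b1 le_rfl hb12.le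
      simpa using this
    rw [← Finset.sum_Ico_consecutive _ hb01 hb12.le]
    rw [← V_add g hb01 hb12.le, ← V_add h hb01 hb12.le]
    have key : |∑ x ∈ Finset.Ico b1 b2, ((g x - h x : ℤ) : ℝ) * c x| ≤
        3 * δ * ((V b1 b2 g + V b1 b2 h : ℤ) : ℝ) := by
      by_cases hV : 1 ≤ V b1 b2 g + V b1 b2 h
      · have h3 := tile_sum c (fun x => g x - h x) b1 b2 δ 2 hb12.le (by
          intro x
          have e1 : |g x - h x| ≤ 2 := by
            have := abs_sub (g x) (h x)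
            have := hg x
            have := hh x
            omega
          exact_mod_cast e1) (hT.amp _ _ h2)
        refine h3.trans ?_
        have h4 : V b1 b2 (fun x => g x - h x) ≤ V b1 b2 g + V b1 b2 h := V_sub_le _ _ _ _
        have h5 : 2 + V b1 b2 (fun x => g x - h x) ≤ 3 * (V b1 b2 g + V b1 b2 h) := by omega
        have h6 : (2 : ℝ) + (V b1 b2 (fun x => g x - h x) : ℝ) ≤
            3 * ((V b1 b2 g + V b1 b2 h : ℤ) : ℝ) := by exact_mod_cast h5
        calc _ ≤ (3 * ((V b1 b2 g + V b1 b2 h : ℤ) : ℝ)) * δ :=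
              mul_le_mul_of_nonneg_right h6 hδ
          _ = _ := by ring
      · have hg0 : V b1 b2 g = 0 := by
          have := V_nonneg b1 b2 g
          have := V_nonneg b1 b2 h
          omega
        have hh0 : V b1 b2 h = 0 := by
          have := V_nonneg b1 b2 g
          have := V_nonneg b1 b2 h
          omega
        have e1 := eq_of_V_eq_zero hg0
        have e2 := eq_of_V_eq_zero hh0
        have e3 : h b1 = g b1 := hnc b1 b2 hb01 h2 _ _ (fun x hx hx' => e2 x hx hx'.le)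
          (fun x hx hx' => e1 x hx hx'.le)
        have e4 : ∑ x ∈ Finset.Ico b1 b2, ((g x - h x : ℤ) : ℝ) * c x = 0 := by
          apply Finset.sum_eq_zero
          intro x hx
          rw [Finset.mem_Ico] at hx
          rw [e1 x hx.1 hx.2.le, e2 x hx.1 hx.2.le, e3]
          simp
        rw [e4]
        simp [hg0, hh0]
    refine (abs_add_le _ _).trans ?_
    have := add_le_add ih key
    refine this.trans (le_of_eq ?_)
    push_cast
    ring

end Pool.Agent.H57
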