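import Pool.Agent.H57.Static

set_option autoImplicit false

namespace Pool.Agent.H57

open Finset

lemma static_two {c : ℕ → ℝ} {δ : ℝ} {T : ℕ → ℕ → Prop} (hT : Tiles c δ T) (hδ : 0 < δ)
    (y : ℕ → ℕ) (hym : Monotone y) (N : ℕ) (ε : ℤ) (hε : ε = 1 ∨ ε = -1)
    (hy : ∀ i, i < N → T (y i) (y (i+1)))
    (hinc : ∀ i, i < N → ∑ x ∈ Finset.Ico (y i) (y (i+1)), c x = ε * δ)
    (a : ℕ) (ha : a ≤ y 0)
    (g h : ℕ → ℤ) (hg : ∀ x, |g x| ≤ 1) (hh : ∀ x, |h x| ≤ 1)
    (P : ℕ) (hVg : ∀ B, V 0 B g ≤ P) (hVh : ∀ B, V 0 B h ≤ P)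
    (B0 : ℕ)
    (hgh : ∀ x, x < a → g x = h x)
    (i1 j1 : ℕ) (hij : i1 < j1) (hjN : j1 < N)
    (α β : ℤ) (hαβ : α ≠ β)
    (hhβ : ∀ x, a ≤ x → x ≤ y i1 → h x = β)
    (hgβ : ∀ x, a ≤ x → x ≤ y j1 → g x = β)
    (hval : ∀ x, y 0 ≤ x → x < y N → h x = α ∨ h x = β)
    (I : Finset ℕ) (hI : ∀ j ∈ I, i1 < j ∧ j < j1 ∧ ∃ x, y j ≤ x ∧ x < y (j+1) ∧ h x ≠ β)
    (hnc : ∀ b b', y (j1+1) ≤ b → T b b' → ∀ α' β', IsC h b b' α' → IsC g b b' β' → α' = β')
    (hsum : ∀ B, B0 ≤ B → |∑ x ∈ Finset.range B, ((g x - h x : ℤ) : ℝ) * c x| ≤ δ) :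
    I.card ≤ 19 * P + 6 := by
  classical
  rcases I.eq_empty_or_nonempty with hIe | ⟨j0, hj0⟩
  · simp [hIe]
  -- bounds on α, β
  obtain ⟨hj01, hj02, x0, hx01, hx02, hx03⟩ := hI j0 hj0
  have hx0a : h x0 = α := by
    rcases hval x0 ((hym (Nat.zero_le _)).trans hx01)
      (lt_of_lt_of_le hx02 (hym (by omega))) with h1 | h1
    · exact h1
    · exact absurd h1 hx03
  have hα1 : |α| ≤ 1 := hx0a ▸ hh x0
  have hβ1 : |β| ≤ 1 := by
    have := hhβ (y i1) (ha.trans (hym (Nat.zero_le _))) le_rfl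
    exact this ▸ hh (y i1)
  set κ : ℤ := (β - α) * ε with hκ
  have hκ0 : κ ≠ 0 := by
    have : β - α ≠ 0 := sub_ne_zero.2 (Ne.symm hαβ)
    apply mul_ne_zero this
    rcases hε with h1 | h1 <;> simp [h1]
  have hκ2 : |κ| ≤ 2 := by
    have h1 : |β - α| ≤ 2 := by
      have := abs_sub β α
      omega
    rcases hε with h2 | h2 <;> simp [hκ, h2]
    · exact h1
    · rw [abs_sub_comm]; exact h1
  have hκsq : (1 : ℝ) ≤ (κ : ℝ) * (κ : ℝ) := by
    have : 1 ≤ κ * κ := by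
      have := Int.one_le_abs hκ0
      nlinarith [abs_mul_abs_self κ]
    exact_mod_cast this
  have hκ2r : |(κ : ℝ)| ≤ 2 := by exact_mod_cast hκ2
  -- cell estimate
  set D : ℕ → ℝ := fun x => ((g x - h x : ℤ) : ℝ) * c x with hD
  have cell : ∀ j ∈ Finset.Ico i1 j1,
      δ * (if j ∈ I then 1 else 0) - 7 * δ * ((V (y j) (y (j+1)) h : ℤ) : ℝ) ≤
        (κ : ℝ) * ∑ x ∈ Finset.Ico (y j) (y (j+1)), D x := by
    intro j hj
    rw [Finset.mem_Ico] at hj
    have hjN' : j < N := by omega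
    have hTj := hy j hjN'
    have hlt := hT.lt _ _ hTj
    have hDeq : ∑ x ∈ Finset.Ico (y j) (y (j+1)), D x =
        ∑ x ∈ Finset.Ico (y j) (y (j+1)), ((β - h x : ℤ) : ℝ) * c x := by
      apply Finset.sum_congr rfl
      intro x hx
      rw [Finset.mem_Ico] at hx
      have : g x = β := hgβ x (ha.trans ((hym (Nat.zero_le _)).trans hx.1))
        (hx.2.le.trans (hym (by omega)))
      simp only [hD, this]
    rw [hDeq]
    have hVn := V_nonneg (y j) (y (j+1)) h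
    by_cases hV : 1 ≤ V (y j) (y (j+1)) h
    · have h3 := tile_sum c (fun x => β - h x) (y j) (y (j+1)) δ 2 hlt.le (by
          intro x
          have e1 : |β - h x| ≤ 2 := by
            have := abs_sub β (h x)
            have := hh x
            omega
          exact_mod_cast e1) (hT.amp _ _ hTj)
      have h4 : V (y j) (y (j+1)) (fun x => β - h x) = V (y j) (y (j+1)) h := by
        unfold V
        apply Finset.sum_congr rfl
        intro x _
        have : β - h (x+1) - (β - h x) = -(h (x+1) - h x) := by ring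
        rw [this, abs_neg]
      rw [h4] at h3
      have h5 : (2 : ℝ) + ((V (y j) (y (j+1)) h : ℤ) : ℝ) ≤ 3 * ((V (y j) (y (j+1)) h : ℤ) : ℝ) := by
        have : 2 + V (y j) (y (j+1)) h ≤ 3 * V (y j) (y (j+1)) h := by omega
        exact_mod_cast this
      have h6 : |(κ : ℝ) * ∑ x ∈ Finset.Ico (y j) (y (j+1)), ((β - h x : ℤ) : ℝ) * c x| ≤
          2 * (3 * ((V (y j) (y (j+1)) h : ℤ) : ℝ) * δ) := by
        rw [abs_mul]
        apply mul_le_mul hκ2r _ (abs_nonneg _) (by norm_num)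
        refine h3.trans ?_
        exact mul_le_mul_of_nonneg_right h5 hδ.le
      have h7 := (abs_le.1 h6).1
      have h8 : (1 : ℝ) ≤ ((V (y j) (y (j+1)) h : ℤ) : ℝ) := by exact_mod_cast hV
      have h9 : δ * (if j ∈ I then 1 else 0) ≤ δ := by
        split_ifs <;> simp [hδ.le]
      have h10 : δ ≤ δ * ((V (y j) (y (j+1)) h : ℤ) : ℝ) := by nlinarith
      linarith
    · have hV0 : V (y j) (y (j+1)) h = 0 := by omega
      have e1 := eq_of_V_eq_zero hV0
      have e2 : ∑ x ∈ Finset.Ico (y j) (y (j+1)), ((β - h x : ℤ) : ℝ) * c x =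
          ((β - h (y j) : ℤ) : ℝ) * (ε * δ) := by
        rw [← hinc j hjN', Finset.mul_sum]
        apply Finset.sum_congr rfl
        intro x hx
        rw [Finset.mem_Ico] at hx
        rw [e1 x hx.1 hx.2.le]
      rw [e2, hV0]
      rcases hval (y j) (hym (Nat.zero_le _)) (lt_of_lt_of_le hlt (hym (by omega))) with h1 | h1
      · rw [h1]
        have h9 : δ * (if j ∈ I then 1 else 0) ≤ δ := by
          split_ifs <;> simp [hδ.le]
        have : (κ : ℝ) * (((β - α : ℤ) : ℝ) * (ε * δ)) = (κ : ℝ) * (κ : ℝ) * δ := by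
          rw [hκ]; push_cast; ring
        rw [this]
        have := mul_le_mul_of_nonneg_right hκsq hδ.le
        simp only [Int.cast_zero, mul_zero, sub_zero]
        linarith
      · have hjI : j ∉ I := by
          intro hjI
          obtain ⟨_, _, x, hx1, hx2, hx3⟩ := hI j hjI
          exact hx3 ((e1 x hx1 hx2.le).trans h1)
        rw [h1]
        simp [hjI]
  -- sum of the cells
  have hmid : δ * (I.card : ℝ) - 7 * δ * (P : ℝ) ≤
      (κ : ℝ) * ∑ x ∈ Finset.Ico (y i1) (y j1), D x := by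
    have h1 : ∑ x ∈ Finset.Ico (y i1) (y j1), D x =
        ∑ j ∈ Finset.Ico i1 j1, ∑ x ∈ Finset.Ico (y j) (y (j+1)), D x := by
      have : ∀ n, i1 ≤ n → ∑ x ∈ Finset.Ico (y i1) (y n), D x =
          ∑ j ∈ Finset.Ico i1 n, ∑ x ∈ Finset.Ico (y j) (y (j+1)), D x := by
        intro n hn
        induction n, hn using Nat.le_induction with
        | base => simp
        | succ n hn ih =>
          rw [Finset.sum_Ico_succ_top hn, ← ih,
            Finset.sum_Ico_consecutive _ (hym hn) (hym (Nat.le_succ n))]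
      exact this j1 hij.le
    rw [h1, Finset.mul_sum]
    refine le_trans ?_ (Finset.sum_le_sum cell)
    rw [Finset.sum_sub_distrib, ← Finset.mul_sum, ← Finset.mul_sum]
    have h2 : ∑ j ∈ Finset.Ico i1 j1, (if j ∈ I then (1 : ℝ) else 0) = (I.card : ℝ) := by
      rw [Finset.sum_ite_mem, Finset.sum_const, nsmul_eq_mul, mul_one]
      congr 2
      apply Finset.inter_eq_right.2
      intro j hj
      obtain ⟨h3, h4, _⟩ := hI j hj
      exact Finset.mem_Ico.2 ⟨h3.le, h4⟩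
    rw [h2]
    have h3 : ∑ j ∈ Finset.Ico i1 j1, ((V (y j) (y (j+1)) h : ℤ) : ℝ) ≤ (P : ℝ) := by
      have h4 := sum_V_cells h y hym i1 j1 hij.le
      have h5 : V (y i1) (y j1) h ≤ P := (V_mono h (Nat.zero_le _) le_rfl).trans (hVh _)
      rw [← h4] at h5
      exact_mod_cast h5
    have := mul_le_mul_of_nonneg_left h3 (show (0:ℝ) ≤ 7 * δ by linarith)
    linarith
  -- the chain
  have hTj1 := hy j1 hjN
  obtain ⟨b1, hb1⟩ := hT.succ _ _ hTj1
  obtain ⟨B, hB, hchain, _⟩ := chain_exists hT hb1 B0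
  have hle := chain_le hT hchain
  have hlt1 := hT.lt _ _ hTj1
  have hrest := chain_sum hT g h hg hh (y (j1+1)) hnc hchain
  have hj1cell : |∑ x ∈ Finset.Ico (y j1) (y (j1+1)), D x| ≤
      (2 + ((V (y j1) (y (j1+1)) g + V (y j1) (y (j1+1)) h : ℤ) : ℝ)) * δ := by
    have h3 := tile_sum c (fun x => g x - h x) (y j1) (y (j1+1)) δ 2 hlt1.le (by
          intro x
          have e1 : |g x - h x| ≤ 2 := by
            have := abs_sub (g x) (h x)
            have := hh x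
            have := hg x
            omega
          exact_mod_cast e1) (hT.amp _ _ hTj1)
    refine h3.trans ?_
    apply mul_le_mul_of_nonneg_right _ hδ.le
    have h4 := V_sub_le (y j1) (y (j1+1)) g h
    have h5 : ((V (y j1) (y (j1+1)) (fun x => g x - h x) : ℤ) : ℝ) ≤
      ((V (y j1) (y (j1+1)) g + V (y j1) (y (j1+1)) h : ℤ) : ℝ) := by exact_mod_cast h4
    linarith
  have htot := hsum B hB
  have hsplit : ∑ x ∈ Finset.range B, D x = ∑ x ∈ Finset.Ico (y i1) (y j1), D x +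
      ∑ x ∈ Finset.Ico (y j1) (y (j1+1)), D x + ∑ x ∈ Finset.Ico (y (j1+1)) B, D x := by
    rw [Finset.range_eq_Ico, ← Finset.sum_Ico_consecutive D (Nat.zero_le (y i1))
      ((hym (by omega : i1 ≤ j1+1)).trans hle)]
    have h0 : ∑ x ∈ Finset.Ico 0 (y i1), D x = 0 := by
      apply Finset.sum_eq_zero
      intro x hx
      rw [Finset.mem_Ico] at hx
      simp only [hD]
      by_cases hxa : x < a
      · rw [hgh x hxa]; simp
      · rw [hhβ x (by omega) hx.2.le, hgβ x (by omega) (hx.2.le.trans (hym hij.le))]; simp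
    rw [h0, zero_add, ← Finset.sum_Ico_consecutive D (hym hij.le) (hlt1.le.trans hle),
      ← Finset.sum_Ico_consecutive D hlt1.le hle, add_assoc]
  rw [hsplit] at htot
  -- combine
  have hVg1 : V (y j1) (y (j1+1)) g + V (y (j1+1)) B g ≤ P := by
    rw [V_add g hlt1.le hle]
    exact (V_mono g (Nat.zero_le _) le_rfl).trans (hVg _)
  have hVh1 : V (y j1) (y (j1+1)) h + V (y (j1+1)) B h ≤ P := by
    rw [V_add h hlt1.le hle]
    exact (V_mono h (Nat.zero_le _) le_rfl).trans (hVh _)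
  have n1 := V_nonneg (y j1) (y (j1+1)) g
  have n2 := V_nonneg (y j1) (y (j1+1)) h
  have n3 := V_nonneg (y (j1+1)) B g
  have n4 := V_nonneg (y (j1+1)) B h
  set M := ∑ x ∈ Finset.Ico (y i1) (y j1), D x
  set t1 := ∑ x ∈ Finset.Ico (y j1) (y (j1+1)), D x
  set t2 := ∑ x ∈ Finset.Ico (y (j1+1)) B, D x
  have hbound : |t1| + |t2| ≤ (2 + 6 * (P : ℝ)) * δ := by
    have h1 : 2 + (V (y j1) (y (j1+1)) g + V (y j1) (y (j1+1)) h) +
        3 * (V (y (j1+1)) B g + V (y (j1+1)) B h) ≤ 2 + 6 * P := by omega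
    have h2 : (2 : ℝ) + ((V (y j1) (y (j1+1)) g + V (y j1) (y (j1+1)) h : ℤ) : ℝ) +
        3 * ((V (y (j1+1)) B g + V (y (j1+1)) B h : ℤ) : ℝ) ≤ 2 + 6 * (P : ℝ) := by
      exact_mod_cast h1
    have h3 := mul_le_mul_of_nonneg_right h2 hδ.le
    have h4 : |t2| ≤ 3 * δ * ((V (y (j1+1)) B g + V (y (j1+1)) B h : ℤ) : ℝ) := hrest
    calc |t1| + |t2| ≤ (2 + ((V (y j1) (y (j1+1)) g + V (y j1) (y (j1+1)) h : ℤ) : ℝ)) * δ +
          3 * δ * ((V (y (j1+1)) B g + V (y (j1+1)) B h : ℤ) : ℝ) := add_le_add hj1cell h4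
      _ = (2 + ((V (y j1) (y (j1+1)) g + V (y j1) (y (j1+1)) h : ℤ) : ℝ) +
        3 * ((V (y (j1+1)) B g + V (y (j1+1)) B h : ℤ) : ℝ)) * δ := by ring
      _ ≤ _ := h3
  have hM : |M| ≤ δ + (2 + 6 * (P : ℝ)) * δ := by
    have h1 : M = (M + t1 + t2) - t1 - t2 := by ring
    have h2 : |M| ≤ |M + t1 + t2| + |t1| + |t2| := by
      calc |M| = |(M + t1 + t2) - t1 - t2| := by rw [← h1]
        _ ≤ |(M + t1 + t2) - t1| + |t2| := abs_sub _ _
        _ ≤ |M + t1 + t2| + |t1| + |t2| := by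
          have := abs_sub (M + t1 + t2) t1
          linarith
    linarith
  have hκM : (κ : ℝ) * M ≤ 2 * (δ + (2 + 6 * (P : ℝ)) * δ) := by
    calc (κ : ℝ) * M ≤ |(κ : ℝ) * M| := le_abs_self _
      _ = |(κ : ℝ)| * |M| := abs_mul _ _
      _ ≤ 2 * (δ + (2 + 6 * (P : ℝ)) * δ) :=
        mul_le_mul hκ2r hM (abs_nonneg _) (by norm_num)
  have hfin : δ * (I.card : ℝ) ≤ δ * (19 * (P : ℝ) + 6) := by
    nlinarith [hmid, hκM]
  have hfin2 : (I.card : ℝ) ≤ 19 * (P : ℝ) + 6 := le_of_mul_le_mul_left hfin hδ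
  exact_mod_cast hfin2

end Pool.Agent.H57
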