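import Pool.Agent.H57.Build

set_option autoImplicit false

namespace Pool.Agent.H57

open Finset Filter Topology

/-- Starts of the stages. -/
def Bs : ℕ → ℕ
  | 0 => 0
  | i+1 => E i 0 (Bs i)

lemma Bs_strictMono : StrictMono Bs := by
  apply strictMono_nat_of_lt_succ
  intro n
  exact lt_E n 0 (Bs n)

/-- The stage of a position. -/
def st (x : ℕ) : ℕ := idx Bs x

lemma st_spec (x : ℕ) : Bs (st x) ≤ x ∧ x < Bs (st x + 1) :=
  idx_spec Bs_strictMono (Nat.zero_le x)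

lemma st_eq {i x : ℕ} (h1 : Bs i ≤ x) (h2 : x < Bs (i+1)) : st x = i :=
  idx_eq Bs_strictMono h1 h2

/-- The sequence `c = u_0 u_1 u_2 ...`. -/
noncomputable def cs (x : ℕ) : ℝ := val (st x) 0 1 (Bs (st x)) x

/-- Tiles: level, depth, sign, start. -/
inductive G : ℕ → ℕ → ℤ → ℕ → Prop
  | root (i : ℕ) : G 0 i 1 (Bs i)
  | child (k d : ℕ) (ε : ℤ) (b j : ℕ) (h : G k (d+1) ε b) (hj : j < (k+1) * (2 * b^2 + 1)) :
      G (k+1) d (ε * sg (k+1) j) (ch d k b j)

lemma G_sign {k d : ℕ} {ε : ℤ} {b : ℕ} (h : G k d ε b) : ε = 1 ∨ ε = -1 := by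
  induction h with
  | root i => left; rfl
  | child k d ε b j h hj ih =>
    rcases ih with h | h <;> rcases sg_or (k+1) j with h' | h' <;> simp [h, h']

lemma G_val {k d : ℕ} {ε : ℤ} {b : ℕ} (h : G k d ε b) :
    ∀ x, b ≤ x → x < E d k b → cs x = val d k ε b x := by
  induction h with
  | root i =>
    intro x h1 h2
    unfold cs
    rw [st_eq h1 h2]
  | child k d ε b j h hj ih =>
    intro x h1 h2
    rw [← ch_succ] at h2
    have hm := ch_strictMono d k b
    have h3 : b ≤ x := by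
      have : ch d k b 0 ≤ ch d k b j := hm.monotone (Nat.zero_le _)
      rw [ch_zero] at this
      exact this.trans h1
    have h4 : x < E (d+1) k b := by
      rw [← ch_end]
      exact lt_of_lt_of_le h2 (hm.monotone hj)
    rw [ih x h3 h4, val_child d k ε b j x h1 h2]

lemma G_succ {k d : ℕ} {ε : ℤ} {b : ℕ} (h : G k d ε b) :
    ∃ d' ε', d ≤ d' ∧ G k d' ε' (E d k b) := by
  induction h with
  | root i => exact ⟨i+1, 1, Nat.le_succ i, G.root (i+1)⟩
  | child k d ε b j h hj ih =>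
    rcases Nat.lt_or_ge (j+1) ((k+1) * (2 * b^2 + 1)) with h1 | h1
    · refine ⟨d, ε * sg (k+1) (j+1), le_rfl, ?_⟩
      rw [← ch_succ]
      exact G.child k d ε b (j+1) h h1
    · obtain ⟨d', ε', h2, h3⟩ := ih
      obtain ⟨d'', rfl⟩ : ∃ d'', d' = d'' + 1 := ⟨d' - 1, by omega⟩
      refine ⟨d'', ε' * sg (k+1) 0, by omega, ?_⟩
      have h4 : j + 1 = (k+1) * (2 * b^2 + 1) := by omega
      rw [← ch_succ, h4, ch_end]
      have := G.child k d'' ε' (E (d+1) k b) 0 h3 (by positivity)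
      rwa [ch_zero] at this

lemma G_start (i : ℕ) : ∀ k, k ≤ i → ∃ ε, G k (i - k) ε (Bs i) := by
  intro k
  induction k with
  | zero => intro _; exact ⟨1, G.root i⟩
  | succ k ih =>
    intro hk
    obtain ⟨ε, h⟩ := ih (by omega)
    have h1 : i - k = (i - (k+1)) + 1 := by omega
    rw [h1] at h
    refine ⟨ε * sg (k+1) 0, ?_⟩
    have := G.child k (i - (k+1)) ε (Bs i) 0 h (by positivity)
    rwa [ch_zero] at this

/-- The tile relation. -/
def TT (κ D b b' : ℕ) : Prop := ∃ d ε, D ≤ d ∧ G κ d ε b ∧ b' = E d κ b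

lemma tile_total {k d : ℕ} {ε : ℤ} {b : ℕ} (h : G k d ε b) :
    ∑ x ∈ Finset.Ico b (E d k b), cs x = ε * dl k := by
  rw [← (val_heights d k ε b (G_sign h)).1]
  apply Finset.sum_congr rfl
  intro x hx
  rw [Finset.mem_Ico] at hx
  exact G_val h x hx.1 hx.2

lemma tile_amp {k d : ℕ} {ε : ℤ} {b : ℕ} (h : G k d ε b) (x : ℕ) (h1 : b ≤ x)
    (h2 : x ≤ E d k b) : |∑ y ∈ Finset.Ico b x, cs y| ≤ dl k := by
  have e1 : ∑ y ∈ Finset.Ico b x, cs y = ∑ y ∈ Finset.Ico b x, val d k ε b y := by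
    apply Finset.sum_congr rfl
    intro y hy
    rw [Finset.mem_Ico] at hy
    exact G_val h y hy.1 (lt_of_lt_of_le hy.2 h2)
  rw [e1]
  obtain ⟨h3, h4⟩ := (val_heights d k ε b (G_sign h)).2 x h1 h2
  rcases G_sign h with hε | hε
  · rw [hε] at h3 h4 ⊢
    simp only [Int.cast_one, one_mul] at h3 h4
    rw [abs_of_nonneg h3]; exact h4
  · rw [hε] at h3 h4 ⊢
    simp only [Int.cast_neg, Int.cast_one, neg_mul, one_mul] at h3 h4
    rw [abs_of_nonpos (by linarith)]; exact h4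

lemma tileSys : TileSys cs dl TT := by
  refine ⟨?_, dl_pos, ?_⟩
  · intro κ D
    refine ⟨?_, ?_, ?_⟩
    · rintro b b' ⟨d, ε, _, _, rfl⟩
      exact lt_E _ _ _
    · rintro b b' ⟨d, ε, _, hG, rfl⟩ x h1 h2
      exact tile_amp hG x h1 h2
    · rintro b b' ⟨d, ε, hd, hG, rfl⟩
      obtain ⟨d', ε', h1, h2⟩ := G_succ hG
      exact ⟨_, d', ε', hd.trans h1, h2, rfl⟩
  · rintro κ D b b' ⟨d, ε, hd, hG, rfl⟩
    obtain ⟨d1, rfl⟩ : ∃ d1, d = d1 + 1 := ⟨d - 1, by omega⟩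
    refine ⟨ch d1 κ b, ε, (ch_strictMono d1 κ b).monotone, G_sign hG, ch_zero _ _ _,
      ch_end _ _ _, ?_, ?_⟩
    · intro j hj
      exact ⟨d1, ε * sg (κ+1) j, by omega, G.child κ d1 ε b j hG hj, ch_succ _ _ _ _⟩
    · intro r i hr hi
      have hj : 2*(κ+1)*r+i < (κ+1) * (2 * b^2 + 1) := by nlinarith
      have hch := G.child κ d1 ε b (2*(κ+1)*r+i) hG hj
      have := tile_total hch
      rw [← ch_succ, sg_up (κ+1) r i hi, mul_one] at this
      exact this

lemma start_tile (κ D b0 : ℕ) : ∃ b b', b0 ≤ b ∧ TT κ D b b' := by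
  obtain ⟨ε, h⟩ := G_start (κ + D + b0) κ (by omega)
  refine ⟨Bs (κ + D + b0), _, ?_, _, ε, ?_, h, rfl⟩
  · have := Bs_strictMono.le_apply (x := κ + D + b0)
    omega
  · omega

lemma st_tendsto : Tendsto st atTop atTop := by
  rw [tendsto_atTop]
  intro i
  rw [eventually_atTop]
  refine ⟨Bs i, ?_⟩
  intro x hx
  by_contra hcon
  push Not at hcon
  have h1 := (st_spec x).2
  have h2 : Bs (st x + 1) ≤ Bs i := Bs_strictMono.monotone hcon
  omega

lemma cs_tendsto : Tendsto cs atTop (𝓝 0) := by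
  have h1 : ∀ x, ‖cs x‖ ≤ dl (st x) := by
    intro x
    rw [Real.norm_eq_abs]
    unfold cs
    rw [abs_val _ _ _ _ _ (Or.inl rfl), zero_add]
  exact squeeze_zero_norm h1 (dl_tendsto.comp st_tendsto)

lemma stage_total (i : ℕ) : ∑ x ∈ Finset.Ico (Bs i) (Bs (i+1)), cs x = 1 := by
  have := tile_total (G.root i)
  simp only [Int.cast_one, one_mul] at this
  have h2 : dl 0 = 1 := by simp [dl]
  rw [h2] at this
  exact this

end Pool.Agent.H57
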