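import Mathlib

set_option autoImplicit false

namespace Pool.Agent.H57

open Finset

/-- Total variation of `f` over the steps `x → x+1` with `a ≤ x < b`. -/
def V (a b : ℕ) (f : ℕ → ℤ) : ℤ := ∑ x ∈ Finset.Ico a b, |f (x + 1) - f x|

lemma V_nonneg (a b : ℕ) (f : ℕ → ℤ) : 0 ≤ V a b f :=
  Finset.sum_nonneg (fun _ _ => abs_nonneg _)

lemma V_add {a b c : ℕ} (f : ℕ → ℤ) (h1 : a ≤ b) (h2 : b ≤ c) :
    V a b f + V b c f = V a c f := by
  unfold V
  exact Finset.sum_Ico_consecutive _ h1 h2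

lemma V_self (a : ℕ) (f : ℕ → ℤ) : V a a f = 0 := by
  simp [V]

lemma V_mono {a b a' b' : ℕ} (f : ℕ → ℤ) (h1 : a' ≤ a) (h2 : b ≤ b') :
    V a b f ≤ V a' b' f := by
  unfold V
  apply Finset.sum_le_sum_of_subset_of_nonneg
  · exact Finset.Ico_subset_Ico h1 h2
  · intro i _ _
    exact abs_nonneg _

lemma eq_of_V_eq_zero {a b : ℕ} {f : ℕ → ℤ} (h : V a b f = 0) :
    ∀ x, a ≤ x → x ≤ b → f x = f a := by
  intro x hax
  induction x, hax using Nat.le_induction with
  | base => intro _; rfl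
  | succ n hn ih =>
    intro hnb
    have h1 : f n = f a := ih (by omega)
    have h2 := (Finset.sum_eq_zero_iff_of_nonneg (fun i _ => abs_nonneg (f (i + 1) - f i))).1 h n
      (Finset.mem_Ico.2 ⟨hn, by omega⟩)
    have h3 := abs_eq_zero.1 h2
    linarith

lemma one_le_V_of_ne {a b x x' : ℕ} {f : ℕ → ℤ} (h1 : a ≤ x) (h2 : x ≤ b) (h1' : a ≤ x')
    (h2' : x' ≤ b) (hne : f x ≠ f x') : 1 ≤ V a b f := by
  by_contra hcon
  have h0 : V a b f = 0 := by
    have := V_nonneg a b f
    omega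
  exact hne ((eq_of_V_eq_zero h0 x h1 h2).trans (eq_of_V_eq_zero h0 x' h1' h2').symm)

lemma V_sub_le (a b : ℕ) (f g : ℕ → ℤ) :
    V a b (fun x => f x - g x) ≤ V a b f + V a b g := by
  unfold V
  rw [← Finset.sum_add_distrib]
  apply Finset.sum_le_sum
  intro i _
  have : (f (i + 1) - g (i + 1)) - (f i - g i) = (f (i + 1) - f i) - (g (i + 1) - g i) := by ring
  rw [this]
  exact abs_sub _ _

/-- Restricting to a monotone subsequence does not increase the variation. -/
lemma V_comp_le {e : ℕ → ℕ} (he : Monotone e) (u : ℕ → ℤ) (a b : ℕ) (hab : a ≤ b) :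
    V a b (fun x => u (e x)) ≤ V (e a) (e b) u := by
  induction b, hab using Nat.le_induction with
  | base => simp [V]
  | succ n hn ih =>
    rw [← V_add (fun x => u (e x)) hn (Nat.le_succ n),
      ← V_add u (he hn) (he (Nat.le_succ n))]
    have key : V n (n + 1) (fun x => u (e x)) ≤ V (e n) (e (n + 1)) u := by
      have h1 : V n (n + 1) (fun x => u (e x)) = |u (e (n + 1)) - u (e n)| := by
        simp [V]
      rw [h1]
      have h2 : ∀ m k : ℕ, k ≤ m → |u m - u k| ≤ V k m u := by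
        intro m k hk
        induction m, hk using Nat.le_induction with
        | base => simp [V]
        | succ j hj ihj =>
          have h3 : V k (j + 1) u = V k j u + |u (j + 1) - u j| := by
            unfold V
            rw [Finset.sum_Ico_succ_top hj]
          rw [h3]
          have h4 : u (j + 1) - u k = (u j - u k) + (u (j + 1) - u j) := by ring
          rw [h4]
          exact (abs_add_le _ _).trans (by linarith)
      exact h2 _ _ (he (Nat.le_succ n))
    linarith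

/-- Sum of variations over consecutive cells. -/
lemma sum_V_cells (f : ℕ → ℤ) (y : ℕ → ℕ) (hy : Monotone y) (i j : ℕ) (hij : i ≤ j) :
    ∑ r ∈ Finset.Ico i j, V (y r) (y (r + 1)) f = V (y i) (y j) f := by
  induction j, hij using Nat.le_induction with
  | base => simp [V]
  | succ n hn ih =>
    rw [Finset.sum_Ico_succ_top hn, ih, V_add f (hy hn) (hy (Nat.le_succ n))]

/-- Abel summation over a tile. -/
lemma abel_tile (c : ℕ → ℝ) (u : ℕ → ℤ) (b x : ℕ) (hx : b ≤ x) :
    ∑ y ∈ Finset.Ico b x, (u y : ℝ) * c y =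
      (u x : ℝ) * (∑ y ∈ Finset.Ico b x, c y)
        - ∑ y ∈ Finset.Ico b x, ((u (y + 1) - u y : ℤ) : ℝ) * (∑ z ∈ Finset.Ico b (y + 1), c z) := by
  induction x, hx using Nat.le_induction with
  | base => simp
  | succ n hn ih =>
    rw [Finset.sum_Ico_succ_top hn, ih]
    rw [Finset.sum_Ico_succ_top (f := fun y => c y) hn]
    rw [Finset.sum_Ico_succ_top (f := fun y => ((u (y + 1) - u y : ℤ) : ℝ) *
      (∑ z ∈ Finset.Ico b (y + 1), c z)) hn]
    rw [Finset.sum_Ico_succ_top (f := fun z => c z) hn]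
    push_cast
    ring

/-- Amplitude bound for a weighted sum over a tile. -/
lemma tile_sum (c : ℕ → ℝ) (u : ℕ → ℤ) (b b' : ℕ) (δ M : ℝ) (hb : b ≤ b')
    (hu : ∀ x, |(u x : ℝ)| ≤ M)
    (hs : ∀ x, b ≤ x → x ≤ b' → |∑ y ∈ Finset.Ico b x, c y| ≤ δ) :
    |∑ x ∈ Finset.Ico b b', (u x : ℝ) * c x| ≤ (M + (V b b' u : ℝ)) * δ := by
  rw [abel_tile c u b b' hb]
  have hδ : 0 ≤ δ := by
    have := hs b le_rfl hb
    simpa using this
  have h1 : |(u b' : ℝ) * (∑ y ∈ Finset.Ico b b', c y)| ≤ M * δ := by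
    rw [abs_mul]
    exact mul_le_mul (hu b') (hs b' hb le_rfl) (abs_nonneg _) ((abs_nonneg _).trans (hu b'))
  have h2 : |∑ y ∈ Finset.Ico b b', ((u (y + 1) - u y : ℤ) : ℝ) *
      (∑ z ∈ Finset.Ico b (y + 1), c z)| ≤ (V b b' u : ℝ) * δ := by
    refine (Finset.abs_sum_le_sum_abs _ _).trans ?_
    unfold V
    push_cast
    rw [Finset.sum_mul]
    apply Finset.sum_le_sum
    intro y hy
    rw [Finset.mem_Ico] at hy
    rw [abs_mul]
    exact mul_le_mul_of_nonneg_left (hs (y + 1) (by omega) (by omega)) (abs_nonneg _)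
  calc _ ≤ |(u b' : ℝ) * (∑ y ∈ Finset.Ico b b', c y)| + |∑ y ∈ Finset.Ico b b',
        ((u (y + 1) - u y : ℤ) : ℝ) * (∑ z ∈ Finset.Ico b (y + 1), c z)| := abs_sub _ _
    _ ≤ M * δ + (V b b' u : ℝ) * δ := by linarith
    _ = _ := by ring

end Pool.Agent.H57
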